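import Mathlib
import Pool.Agent.U462.Gap.Sieve

set_option autoImplicit false
set_option linter.unusedSectionVars false

/-! # Sieved profiles along the numbers `2 k m + 1` -/

open MeasureTheory Filter Set
open scoped ENNReal Topology

namespace Pool.Agent.U462.Mul

open Pool.Agent.U839.Sv (W W_eq W_pos W_ge_one W_mono W_le Er Er_nonneg Er_mono stretch wt Pr mem_Pr)
open Pool.Agent.U462.Gap (fT aT fT_def' fT_nonneg fT_le aT_nonneg Small err_le exists_R tlog T_small)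

/-- `2 k m + 1` -/
def ap (m k : ℕ) : ℕ := 2 * k * m + 1

lemma ap_mono (m : ℕ) : Monotone (ap m) := fun a b h => by
  unfold ap
  have : 2 * a * m ≤ 2 * b * m := Nat.mul_le_mul_right m (by omega)
  omega

/-- the sieve conditions for `2 k m + 1` are conditions for `k + u` -/
lemma exists_shift (m t : ℕ) (hm : 1 ≤ m) : ∃ u : ℕ, ∀ q : ℕ, q.Prime → q ≤ t → ¬ q ∣ 2 * m →
    ∀ k : ℕ, (q ∣ k + u ↔ q ∣ ap m k) := by
  classical
  obtain ⟨M, hM⟩ : ∃ M, M = ∏ q ∈ (Pr t).filter (fun q => ¬ q ∣ 2 * m), q := ⟨_, rfl⟩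
  have hcop : Nat.Coprime (2 * m) M := by
    rw [hM]
    apply Nat.Coprime.prod_right
    intro q hq
    rw [Finset.mem_filter, mem_Pr] at hq
    exact ((Nat.Prime.coprime_iff_not_dvd hq.1.1).2 hq.2).symm
  have hMpos : 0 < M := by
    rw [hM]
    exact Finset.prod_pos fun q hq => (mem_Pr.1 (Finset.mem_filter.1 hq).1).1.pos
  obtain ⟨a, b, hab⟩ := Nat.isCoprime_iff_coprime.2 hcop
  have hMi : (0 : ℤ) < M := by exact_mod_cast hMpos
  refine ⟨(a % M).toNat, fun q hq hqt hqm k => ?_⟩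
  have hu : (((a % M).toNat : ℕ) : ℤ) = a % M := Int.toNat_of_nonneg (Int.emod_nonneg _ hMi.ne')
  have hqM : q ∣ M := by
    rw [hM]
    exact Finset.dvd_prod_of_mem _ (Finset.mem_filter.2 ⟨mem_Pr.2 ⟨hq, hqt⟩, hqm⟩)
  have hqM' : (q : ℤ) ∣ M := by exact_mod_cast hqM
  have h1 : (q : ℤ) ∣ 2 * m * (k + (a % M)) - (2 * k * m + 1) := by
    have e1 : (M : ℤ) ∣ 2 * m * (k + (a % M)) - (2 * k * m + 1) := by
      have e2 : (a : ℤ) % M = a - M * (a / M) := by
        have := Int.emod_add_mul_ediv a M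
        linarith
      rw [e2]
      push_cast at hab
      refine ⟨-b - 2 * m * (a / M), ?_⟩
      linear_combination hab
    exact hqM'.trans e1
  have hqm' : ¬ (q : ℤ) ∣ 2 * m := by
    intro h
    apply hqm
    exact_mod_cast h
  have hqp : Prime (q : ℤ) := Nat.prime_iff_prime_int.1 hq
  constructor
  · intro h
    have h2 : (q : ℤ) ∣ k + (a % M) := by
      rw [← hu]; exact_mod_cast h
    have h3 : (q : ℤ) ∣ 2 * k * m + 1 := by
      have h4 : (q : ℤ) ∣ 2 * m * (k + (a % M)) := h2.mul_left _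
      have := Int.dvd_sub h4 h1
      simpa using this
    unfold ap
    exact_mod_cast h3
  · intro h
    have h2 : (q : ℤ) ∣ 2 * k * m + 1 := by
      unfold ap at h
      exact_mod_cast h
    have h3 : (q : ℤ) ∣ 2 * m * (k + (a % M)) := by
      have := Int.dvd_add h1 h2
      simpa using this
    have h4 := (hqp.dvd_or_dvd h3).resolve_left hqm'
    rw [← hu] at h4
    exact_mod_cast h4

/-- sums along the progression, with the sieve by `2` and others -/
lemma mass_two (R : ℕ) (hR : 13 ≤ R) (T : ℕ → ℕ) (hT : Monotone T) (m K t : ℕ) (hm : 1 ≤ m)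
    (ht : T (ap m K) ≤ t) (h2 : 2 ≤ T m) :
    2 * (K : ℝ) * (1 - 2 ^ 25 * (1 / 2) ^ (2 * R)) - ((t : ℝ) + 2) ^ (8 * R + 18) ≤
      ∑ k ∈ Finset.Ioc 0 K, fT T (ap m k) ∧
    (m.Prime → t < m → ∑ k ∈ Finset.Ioc 0 K, fT T (ap m k) ≤
      2 * (K : ℝ) * (1 + 2 ^ 25 * (1 / 2) ^ (2 * R)) + ((t : ℝ) + 2) ^ (8 * R + 18)) := by
  classical
  obtain ⟨u, hu⟩ := exists_shift m t hm
  have hg : Monotone (fun k => T (ap m k)) := fun a b h => hT (ap_mono m h)
  have hmap : ∀ k, 1 ≤ k → m ≤ ap m k := by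
    intro k hk
    unfold ap
    have : m ≤ k * m := Nat.le_mul_of_pos_left m hk
    have e : 2 * k * m = 2 * (k * m) := by ring
    omega
  have h := stretch R hR (fun k => T (ap m k)) hg {2} (by
    intro p hp
    rw [Finset.mem_singleton] at hp
    rw [hp]; exact Nat.prime_two) u 0 K (by
    intro j hj p hp
    rw [Finset.mem_singleton] at hp
    rw [hp]
    exact h2.trans (hT (hmap j hj)))
  simp only [zero_add, Finset.prod_singleton] at h
  have e2 : ((1 : ℝ) - 1 / ((2 : ℕ) : ℝ))⁻¹ = 2 := by norm_num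
  rw [e2] at h
  have herr : ((T (ap m K) : ℝ) + 1) * (W (T (ap m K)) * Er R (T (ap m K))) ≤ ((t : ℝ) + 2) ^ (8 * R + 18) := by
    refine (err_le R _).trans ?_
    apply pow_le_pow_left₀ (by positivity)
    have : (T (ap m K) : ℝ) ≤ t := by exact_mod_cast ht
    linarith
  have habs := abs_le.1 h
  have hle : ∀ k ∈ Finset.Ioc 0 K, T (ap m k) ≤ t := by
    intro k hk
    rw [Finset.mem_Ioc] at hk
    exact (hT (ap_mono m hk.2)).trans ht
  constructor
  · have h3 : ∑ j ∈ Finset.Ioc 0 K, wt (fun k => T (ap m k)) {2} u j ≤ ∑ k ∈ Finset.Ioc 0 K, fT T (ap m k) := by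
      apply Finset.sum_le_sum
      intro k hk
      have hkt := hle k hk
      unfold wt
      split_ifs with h4
      · have h5 : ∀ p, p.Prime → p ≤ T (ap m k) → ¬ p ∣ ap m k := by
          intro p hp hpt hd
          by_cases hpm : p ∣ 2 * m
          · have h6 : p ∣ 2 * k * m := by
              have : 2 * k * m = 2 * m * k := by ring
              rw [this]; exact hpm.mul_right k
            have h7 : p ∣ 1 := by
              unfold ap at hd
              exact (Nat.dvd_add_right h6).1 hd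
            exact hp.one_lt.ne' (Nat.dvd_one.1 h7)
          · have hp2 : p ∉ ({2} : Finset ℕ) := by
              rw [Finset.mem_singleton]
              intro h6
              rw [h6] at hpm
              exact hpm (Dvd.intro m rfl)
            exact h4 p hp hpt hp2 ((hu p hp (hpt.trans hkt) hpm k).2 hd)
        rw [fT_def', if_pos h5]
      · exact fT_nonneg T _
    nlinarith [habs.1, habs.2]
  · intro hmp htm
    have h3 : ∑ k ∈ Finset.Ioc 0 K, fT T (ap m k) ≤ ∑ j ∈ Finset.Ioc 0 K, wt (fun k => T (ap m k)) {2} u j := by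
      apply Finset.sum_le_sum
      intro k hk
      have hkt := hle k hk
      unfold wt
      rw [fT_def']
      split_ifs with h4 h5 h5
      · exact le_rfl
      · exfalso
        apply h5
        intro p hp hpt hp2 hd
        rw [Finset.mem_singleton] at hp2
        have hpm : ¬ p ∣ 2 * m := by
          intro h6
          rcases (Nat.Prime.dvd_mul hp).1 h6 with h7 | h7
          · exact hp2 ((Nat.prime_dvd_prime_iff_eq hp Nat.prime_two).1 h7)
          · have h8 := (Nat.prime_dvd_prime_iff_eq hp hmp).1 h7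
            have h9 : p ≤ T (ap m k) := hpt
            omega
        exact h4 p hp hpt ((hu p hp (hpt.trans hkt) hpm k).1 hd)
      · exact (W_pos _).le
      · exact le_rfl
    nlinarith [habs.1, habs.2]

open Classical in
/-- `2` if the sieve removes the even numbers, `1` otherwise -/
noncomputable def dT (T : ℕ → ℕ) : ℝ := if ∃ n, 2 ≤ T n then 2 else 1

lemma dT_pos (T : ℕ → ℕ) : 1 ≤ dT T ∧ dT T ≤ 2 := by
  unfold dT
  split_ifs <;> norm_num

lemma W_one {t : ℕ} (ht : t ≤ 1) : W t = 1 := by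
  rw [W_eq]
  have : Pr t = ∅ := by
    ext q
    rw [mem_Pr]
    simp only [Finset.notMem_empty, iff_false]
    rintro ⟨h1, h2⟩
    exact absurd h1.two_le (by omega)
  rw [this, Finset.prod_empty]

lemma mass (R : ℕ) (hR : 13 ≤ R) (T : ℕ → ℕ) (hT : Monotone T) (m K t : ℕ) (hm : 1 ≤ m)
    (ht : T (ap m K) ≤ t) (h2 : (∃ n, 2 ≤ T n) → 2 ≤ T m) :
    dT T * (K : ℝ) * (1 - 2 ^ 25 * (1 / 2) ^ (2 * R)) - ((t : ℝ) + 2) ^ (8 * R + 18) ≤
      ∑ k ∈ Finset.Ioc 0 K, fT T (ap m k) ∧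
    (m.Prime → t < m → ∑ k ∈ Finset.Ioc 0 K, fT T (ap m k) ≤
      dT T * (K : ℝ) * (1 + 2 ^ 25 * (1 / 2) ^ (2 * R)) + ((t : ℝ) + 2) ^ (8 * R + 18)) := by
  classical
  by_cases h : ∃ n, 2 ≤ T n
  · have e : dT T = 2 := by unfold dT; rw [if_pos h]
    rw [e]
    exact mass_two R hR T hT m K t hm ht (h2 h)
  · have e : dT T = 1 := by unfold dT; rw [if_neg h]
    push Not at h
    have h3 : ∑ k ∈ Finset.Ioc 0 K, fT T (ap m k) = K := by
      have h4 : ∀ k ∈ Finset.Ioc 0 K, fT T (ap m k) = 1 := by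
        intro k _
        have h5 : T (ap m k) ≤ 1 := by have := h (ap m k); omega
        rw [fT_def', if_pos, W_one h5]
        intro p hp hpt
        exact absurd hp.two_le (by omega)
      rw [Finset.sum_congr rfl h4]
      simp
    rw [e, h3]
    have h6 : (0 : ℝ) ≤ K := Nat.cast_nonneg K
    have h7 : (0 : ℝ) ≤ 2 ^ 25 * (1 / 2) ^ (2 * R) := by positivity
    have h8 : (0 : ℝ) ≤ ((t : ℝ) + 2) ^ (8 * R + 18) := by positivity
    constructor
    · nlinarith [mul_nonneg h6 h7]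
    · intro _ _
      nlinarith [mul_nonneg h6 h7]

set_option maxHeartbeats 4000000 in
/-- the expected number of elements among `2 k m + 1`, `k ≤ K` -/
theorem amass (ε : ℝ) (hε : 0 < ε) (hε1 : ε ≤ 1) : ∃ (u : ℕ) (η : ℝ), 0 < η ∧ η ≤ 1 / 2 ∧
    ∀ (T : ℕ → ℕ), Monotone T → Small T → ∀ᶠ m : ℕ in atTop, ∀ K : ℕ,
      ((T (m ^ 2) : ℝ) + 2) ^ u ≤ K → (K : ℝ) ≤ (m : ℝ) ^ η →
      (1 - ε) * (dT T * K / Real.log m) ≤ ∑ k ∈ Finset.Ioc 0 K, aT T (ap m k) ∧
      (m.Prime → ∑ k ∈ Finset.Ioc 0 K, aT T (ap m k) ≤ (1 + ε) * (dT T * K / Real.log m)) := by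
  obtain ⟨ε₁, h1, h2⟩ : ∃ ε₁ : ℝ, 0 < ε₁ ∧ ε₁ = ε / 4 := ⟨ε / 4, by positivity, rfl⟩
  obtain ⟨R, hR, hRε⟩ := exists_R ε₁ h1
  obtain ⟨s, hs⟩ := pow_unbounded_of_one_lt (1 / ε₁) (one_lt_two)
  refine ⟨8 * R + 18 + s, min (1 / 2) (ε₁ / 2), lt_min (by norm_num) (by positivity), min_le_left _ _, ?_⟩
  intro T hT hTs
  obtain ⟨n₀, hn₀⟩ : ∃ n₀, (∃ n, 2 ≤ T n) → 2 ≤ T n₀ := by
    by_cases h : ∃ n, 2 ≤ T n
    · obtain ⟨n, hn⟩ := h; exact ⟨n, fun _ => hn⟩
    · exact ⟨0, fun h' => absurd h' h⟩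
  have e1 : ∀ᶠ m : ℕ in atTop, (T (m ^ 2) : ℝ) ≤ ((m ^ 2 : ℕ) : ℝ) ^ (1 / 4 : ℝ) :=
    (tendsto_pow_atTop (by norm_num : (2 : ℕ) ≠ 0)).eventually (hTs (1 / 4) (by norm_num))
  filter_upwards [e1, eventually_ge_atTop n₀, eventually_ge_atTop 16, tlog.eventually_ge_atTop (8 / ε₁)]
    with m g1 g2 g3 g4 K hK1 hK2
  have hm16 : (16 : ℝ) ≤ m := by exact_mod_cast g3
  have hm0 : (0 : ℝ) < m := by linarith
  obtain ⟨L, hL⟩ : ∃ L, L = Real.log (m : ℝ) := ⟨_, rfl⟩
  rw [← hL] at g4 ⊢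
  have hL8 : 8 ≤ ε₁ * L := by
    have := mul_le_mul_of_nonneg_left g4 h1.le
    have e : ε₁ * (8 / ε₁) = 8 := by field_simp
    linarith
  have hL0 : 0 < L := by
    by_contra hc
    push Not at hc
    nlinarith
  -- `m^(1/2)`
  have hsq : (m : ℝ) ^ (1 / 2 : ℝ) = √m := (Real.sqrt_eq_rpow _).symm
  have hsqm : 4 * √(m : ℝ) ≤ m := by
    have h4 : (4 : ℝ) ≤ √m := by
      apply Real.le_sqrt_of_sq_le; linarith
    have h5 : √(m : ℝ) * √m = m := Real.mul_self_sqrt hm0.le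
    nlinarith [Real.sqrt_nonneg (m : ℝ)]
  have hK3 : (K : ℝ) ≤ √m := by
    refine hK2.trans ?_
    rw [← hsq]
    exact Real.rpow_le_rpow_of_exponent_le (by linarith) (min_le_left _ _)
  have hK4 : 4 * (K : ℝ) ≤ m := by linarith
  have hapK : ap m K ≤ m ^ 2 := by
    have : (ap m K : ℝ) ≤ ((m ^ 2 : ℕ) : ℝ) := by
      unfold ap
      push_cast
      nlinarith
    exact_mod_cast this
  have htm : T (m ^ 2) < m := by
    have h5 : (T (m ^ 2) : ℝ) < m := by
      refine lt_of_le_of_lt g1 ?_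
      have h6 : ((m ^ 2 : ℕ) : ℝ) ^ (1 / 4 : ℝ) = √m := by
        push_cast
        rw [← hsq, ← Real.rpow_natCast, ← Real.rpow_mul hm0.le]
        norm_num
      rw [h6]
      linarith
    exact_mod_cast h5
  have hmass := mass R hR T hT m K (T (m ^ 2)) (by omega) (hT hapK) (fun h => (hn₀ h).trans (hT g2))
  obtain ⟨F, hF⟩ : ∃ F, F = ∑ k ∈ Finset.Ioc 0 K, fT T (ap m k) := ⟨_, rfl⟩
  rw [← hF] at hmass
  obtain ⟨d, hd⟩ : ∃ d, d = dT T := ⟨_, rfl⟩
  have hdb := dT_pos T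
  rw [← hd] at hmass hdb ⊢
  have hK0 : (0 : ℝ) < K := lt_of_lt_of_le (by positivity) hK1
  have hE : ((T (m ^ 2) : ℝ) + 2) ^ (8 * R + 18) ≤ ε₁ * K := by
    have h5 : (1 / ε₁) * ((T (m ^ 2) : ℝ) + 2) ^ (8 * R + 18) ≤ K := by
      refine le_trans ?_ hK1
      rw [pow_add _ (8 * R + 18) s, mul_comm]
      apply mul_le_mul_of_nonneg_left _ (by positivity)
      refine hs.le.trans ?_
      apply pow_le_pow_left₀ (by norm_num)
      linarith [(Nat.cast_nonneg (T (m ^ 2)) : (0 : ℝ) ≤ _)]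
    have h6 := mul_le_mul_of_nonneg_left h5 h1.le
    have e : ε₁ * ((1 / ε₁) * ((T (m ^ 2) : ℝ) + 2) ^ (8 * R + 18)) = ((T (m ^ 2) : ℝ) + 2) ^ (8 * R + 18) := by
      field_simp
    linarith
  have hRK : d * K * (2 ^ 25 * (1 / 2) ^ (2 * R)) ≤ d * K * ε₁ := mul_le_mul_of_nonneg_left hRε (by nlinarith)
  have hdK : (K : ℝ) ≤ d * K := by nlinarith
  have hεK : ε₁ * K ≤ ε₁ * (d * K) := mul_le_mul_of_nonneg_left hdK h1.le
  have hlow : (1 - 2 * ε₁) * (d * K) ≤ F := by nlinarith [hmass.1]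
  have hup : m.Prime → F ≤ (1 + 2 * ε₁) * (d * K) := by
    intro hp
    have := hmass.2 hp htm
    nlinarith
  -- logarithms
  have hlog : ∀ k ∈ Finset.Ioc 0 K, L ≤ Real.log (ap m k) ∧ Real.log (ap m k) ≤ (1 + ε₁) * L := by
    intro k hk
    rw [Finset.mem_Ioc] at hk
    have hk1 : (1 : ℝ) ≤ k := by exact_mod_cast hk.1
    have hkK : (k : ℝ) ≤ K := by exact_mod_cast hk.2
    have e3 : (ap m k : ℝ) = 2 * k * m + 1 := by unfold ap; push_cast; ring
    rw [e3]
    constructor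
    · rw [hL]
      apply Real.log_le_log hm0
      nlinarith
    · have h5 : 2 * (k : ℝ) * m + 1 ≤ 4 * (K * m) := by nlinarith
      have h6 : Real.log (2 * k * m + 1) ≤ Real.log (4 * (K * m)) := Real.log_le_log (by positivity) h5
      rw [Real.log_mul (by norm_num) (by positivity), Real.log_mul hK0.ne' hm0.ne', ← hL] at h6
      have h7 : Real.log K ≤ ε₁ / 2 * L := by
        have h8 : Real.log K ≤ Real.log ((m : ℝ) ^ (ε₁ / 2)) := by
          apply Real.log_le_log hK0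
          refine hK2.trans ?_
          exact Real.rpow_le_rpow_of_exponent_le (by linarith) (min_le_right _ _)
        rwa [Real.log_rpow hm0, ← hL] at h8
      have h9 : Real.log 4 ≤ 2 := by
        have h10 : Real.log 4 = 2 * Real.log 2 := by
          rw [show (4 : ℝ) = 2 ^ 2 by norm_num, Real.log_pow]; norm_num
        have := Real.log_two_lt_d9
        linarith
      nlinarith
  have hsum1 : F / ((1 + ε₁) * L) ≤ ∑ k ∈ Finset.Ioc 0 K, aT T (ap m k) := by
    rw [hF, Finset.sum_div]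
    apply Finset.sum_le_sum
    intro k hk
    unfold aT
    obtain ⟨l1, l2⟩ := hlog k hk
    exact div_le_div_of_nonneg_left (fT_nonneg T _) (by linarith) l2
  have hsum2 : ∑ k ∈ Finset.Ioc 0 K, aT T (ap m k) ≤ F / L := by
    rw [hF, Finset.sum_div]
    apply Finset.sum_le_sum
    intro k hk
    unfold aT
    obtain ⟨l1, l2⟩ := hlog k hk
    exact div_le_div_of_nonneg_left (fT_nonneg T _) hL0 l1
  have hQ0 : 0 < d * K := by nlinarith
  constructor
  · refine le_trans ?_ hsum1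
    rw [le_div_iff₀ (by positivity)]
    have e4 : (1 - ε) * (d * K / L) * ((1 + ε₁) * L) = (1 - ε) * (1 + ε₁) * (d * K) := by field_simp
    rw [e4]
    refine le_trans ?_ hlow
    apply mul_le_mul_of_nonneg_right _ hQ0.le
    rw [h2]
    nlinarith
  · intro hp
    refine hsum2.trans ?_
    rw [div_le_iff₀ hL0]
    have e4 : (1 + ε) * (d * K / L) * L = (1 + ε) * (d * K) := by field_simp
    rw [e4]
    refine (hup hp).trans ?_
    apply mul_le_mul_of_nonneg_right _ hQ0.le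
    rw [h2]
    linarith

end Pool.Agent.U462.Mul
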