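import Mathlib
import Pool.Agent.U462.Mul.Sieve
import Pool.Agent.U462.Uni.Real

set_option autoImplicit false
set_option linter.unusedSectionVars false

/-! # The least multiplier: upper bounds -/

open MeasureTheory Filter Set
open scoped ENNReal Topology

namespace Pool.Agent.U462.Mul

open Pool.Agent.R528.RM (dens WV dens_meas lower_meas upper_meas WV_meas)
open Pool.Agent.U462.Gap (fT aT fT_nonneg aT_nonneg aT_tendsto Small tlog T_small Em Em_meas E_le Model VD VD_meas no_VD bc markov)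

variable {Ω : Type} {m0 : MeasurableSpace Ω} {μ : Measure Ω} [IsProbabilityMeasure μ]
  {ℱ : Filtration ℕ m0} {A : ℕ → Set Ω} {a : ℕ → ℝ}

/-- none of the `2 k m + 1`, `1 ≤ k ≤ K`, belongs to the set -/
def No (A : ℕ → Set Ω) (m K : ℕ) : Set Ω := {ω | ∀ k, 1 ≤ k → k ≤ K → ω ∉ A (ap m k)}

/-- the times of the tests -/
def tst (m K n : ℕ) : Prop := n % (2 * m) = 1 ∧ 2 * m < n ∧ n ≤ ap m K

instance (m K n : ℕ) : Decidable (tst m K n) := by unfold tst; infer_instance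

lemma tst_iff {m K n : ℕ} (hm : 1 ≤ m) : tst m K n ↔ ∃ k, 1 ≤ k ∧ k ≤ K ∧ n = ap m k := by
  unfold tst ap
  constructor
  · rintro ⟨h1, h2, h3⟩
    have h4 := Nat.div_add_mod n (2 * m)
    rw [h1] at h4
    have h5 : 1 ≤ n / (2 * m) := by
      rw [Nat.one_le_div_iff (by omega)]; omega
    refine ⟨n / (2 * m), h5, ?_, by rw [← h4]; simp only [Nat.add_right_cancel_iff]; rw [h4]; ring⟩
    by_contra hc
    push Not at hc
    have h6 : 2 * m * (K + 1) ≤ 2 * m * (n / (2 * m)) := Nat.mul_le_mul_left _ hc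
    have h7 : 2 * m * (K + 1) = 2 * K * m + 2 * m := by ring
    omega
  · rintro ⟨k, h1, h2, rfl⟩
    have e1 : 2 * k * m + 1 = 1 + 2 * m * k := by ring
    refine ⟨?_, ?_, ?_⟩
    · rw [e1, Nat.add_mul_mod_self_left]
      exact Nat.mod_eq_of_lt (by omega)
    · have : 2 * m * 1 ≤ 2 * m * k := Nat.mul_le_mul_left _ h1
      omega
    · have : 2 * k * m ≤ 2 * K * m := Nat.mul_le_mul_right m (by omega)
      omega

lemma ap_inj {m : ℕ} (hm : 1 ≤ m) {k l : ℕ} (h : ap m k = ap m l) : k = l := by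
  unfold ap at h
  have h1 : 2 * k * m = 2 * l * m := by omega
  have h2 := Nat.eq_of_mul_eq_mul_right hm h1
  omega

lemma sum_ap {m K t j : ℕ} (hm : 1 ≤ m) (ht : t < 2 * m + 1) (hj : ap m K ≤ t + j) (f : ℕ → ℝ) :
    ∑ n ∈ Finset.Ioc t (t + j), (if tst m K n then f n else 0) = ∑ k ∈ Finset.Ioc 0 K, f (ap m k) := by
  classical
  rw [← Finset.sum_filter]
  have h1 : (Finset.Ioc t (t + j)).filter (fun n => tst m K n) = (Finset.Ioc 0 K).image (ap m) := by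
    ext n
    rw [Finset.mem_filter, Finset.mem_image, Finset.mem_Ioc, tst_iff hm]
    constructor
    · rintro ⟨-, k, h2, h3, h4⟩
      exact ⟨k, Finset.mem_Ioc.2 ⟨h2, h3⟩, h4.symm⟩
    · rintro ⟨k, h2, rfl⟩
      rw [Finset.mem_Ioc] at h2
      have h3 := ap_mono m h2.2
      have h4 : 2 * m * 1 ≤ 2 * m * k := Nat.mul_le_mul_left _ h2.1
      have h5 : ap m k = 2 * m * k + 1 := by unfold ap; ring
      exact ⟨⟨by omega, by omega⟩, k, h2.1, h2.2, rfl⟩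
  rw [h1, Finset.sum_image (fun x _ y _ h => ap_inj hm h)]

/-- the probability that all tests fail -/
theorem no_le (hA : ∀ n, MeasurableSet[ℱ n] (A n)) (ha : ∀ n, 0 ≤ a n) {δ : ℝ} (hδ : 0 < δ) (hδ1 : δ ≤ 1)
    {m : ℕ} (hm : 1 ≤ m) (K : ℕ) (ha1 : ∀ n, m ≤ n → a n ≤ 1) :
    μ.real (No A m K \ WV (VD μ ℱ A a δ) (2 * m) (2 * K * m)) ≤
      Real.exp (-((1 - δ) * ∑ k ∈ Finset.Ioc 0 K, a (ap m k))) := by
  classical
  have hV : ∀ n, MeasurableSet[ℱ n] (VD μ ℱ A a δ n) := fun n => VD_meas δ n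
  obtain ⟨A', hA'd⟩ : ∃ A' : ℕ → Set Ω, A' = fun n => if tst m K n then A n else ∅ := ⟨_, rfl⟩
  have hA' : ∀ n, MeasurableSet[ℱ n] (A' n) := by
    intro n
    rw [hA'd]
    simp only
    split_ifs
    · exact hA n
    · exact @MeasurableSet.empty Ω (ℱ n)
  obtain ⟨l, hl⟩ : ∃ l : ℕ → ℝ, l = fun n => if tst m K n then (1 - δ) * a n else 0 := ⟨_, rfl⟩
  have h1 := E_le (μ := μ) hA' hV l (2 * m) (B := univ) MeasurableSet.univ (2 * K * m) (by
    intro n h1 h2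
    rw [hl]
    simp only
    split_ifs
    · have := ha1 (n + 1) (by omega)
      have := ha (n + 1)
      nlinarith
    · exact zero_le_one) (by
    intro n h1 h2 ω hω
    rw [hl]
    simp only
    by_cases h3 : tst m K (n + 1)
    · rw [if_pos h3]
      have e : dens μ ℱ A' n ω = dens μ ℱ A n ω := by
        unfold dens
        rw [hA'd]
        simp only
        rw [if_pos h3]
      rw [e]
      simp only [VD, mem_ofPred_eq, not_not] at hω
      have := (abs_le.1 hω).1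
      linarith
    · rw [if_neg h3]
      have e : dens μ ℱ A' n = 0 := by
        unfold dens
        rw [hA'd]
        simp only
        rw [if_neg h3, Set.indicator_empty]
        exact condExp_zero
      rw [e]
      exact le_rfl) (2 * K * m) le_rfl
  have h2 : ∑ n ∈ Finset.Ioc (2 * m) (2 * m + 2 * K * m), l n = (1 - δ) * ∑ k ∈ Finset.Ioc 0 K, a (ap m k) := by
    rw [hl, sum_ap (m := m) (K := K) hm (by omega) (by unfold ap; omega) (fun n => (1 - δ) * a n), Finset.mul_sum]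
  rw [h2, probReal_univ, mul_one, univ_inter] at h1
  refine le_trans (measureReal_mono (sdiff_subset_sdiff_left ?_)) h1
  intro ω hω n g1 g2
  rw [hA'd]
  simp only
  split_ifs with h3
  · obtain ⟨k, h4, h5, h6⟩ := (tst_iff hm).1 h3
    rw [h6]
    exact hω k h4 h5
  · exact Set.notMem_empty ω

lemma No_meas (hA : ∀ n, MeasurableSet[ℱ n] (A n)) (m K : ℕ) : MeasurableSet (No A m K) := by
  have : No A m K = ⋂ k ∈ {k | 1 ≤ k ∧ k ≤ K}, (A (ap m k))ᶜ := by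
    ext ω
    simp only [No, mem_ofPred_eq, mem_iInter, mem_compl_iff, and_imp]
  rw [this]
  refine MeasurableSet.biInter (Set.to_countable _) fun k _ => ?_
  exact (ℱ.le _ _ (hA _)).compl

lemma rpow_log_sq {η C : ℝ} (hη : 0 < η) : ∀ᶠ m : ℕ in atTop, C * Real.log m ^ 2 ≤ (m : ℝ) ^ η := by
  have h1 := (isLittleO_log_rpow_rpow_atTop (2 : ℝ) hη).bound (show (0 : ℝ) < 1 / (|C| + 1) by positivity)
  filter_upwards [tendsto_natCast_atTop_atTop.eventually h1, eventually_ge_atTop 1] with m h2 h3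
  have hm : (1 : ℝ) ≤ m := by exact_mod_cast h3
  have h4 : 0 ≤ Real.log (m : ℝ) ^ (2 : ℝ) := Real.rpow_nonneg (Real.log_nonneg hm) _
  have h5 : 0 ≤ (m : ℝ) ^ η := by positivity
  rw [Real.norm_of_nonneg h4, Real.norm_of_nonneg h5] at h2
  have h6 : Real.log (m : ℝ) ^ (2 : ℝ) = Real.log m ^ 2 := by
    rw [show (2 : ℝ) = ((2 : ℕ) : ℝ) by norm_num, Real.rpow_natCast]
  rw [h6] at h2 h4
  have h7 : (|C| + 1) * Real.log m ^ 2 ≤ (m : ℝ) ^ η := by
    have := mul_le_mul_of_nonneg_left h2 (show 0 ≤ |C| + 1 by positivity)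
    have e : (|C| + 1) * (1 / (|C| + 1) * (m : ℝ) ^ η) = (m : ℝ) ^ η := by field_simp
    linarith
  have h8 : C * Real.log m ^ 2 ≤ (|C| + 1) * Real.log m ^ 2 :=
    mul_le_mul_of_nonneg_right (by linarith [le_abs_self C]) h4
  linarith

lemma T_sq (T : ℕ → ℕ) (hT : Monotone T) (hTs : Small T) (D : ℕ) {ε : ℝ} (hε : 0 < ε) :
    ∀ᶠ m : ℕ in atTop, ((T (m ^ 2) : ℝ) + 2) ^ D ≤ (m : ℝ) ^ ε := by
  have h1 := (tendsto_pow_atTop (by norm_num : (2 : ℕ) ≠ 0)).eventually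
    (T_small T hTs (D + 1) (by omega) (ε / 2) (by positivity))
  filter_upwards [h1, eventually_ge_atTop 1] with m h2 h3
  have hm : (1 : ℝ) ≤ m := by exact_mod_cast h3
  have h4 : (T (m ^ 2) : ℝ) ≤ T (4 * m ^ 2) := by
    have : T (m ^ 2) ≤ T (4 * m ^ 2) := hT (by omega)
    exact_mod_cast this
  have h5 : (0 : ℝ) ≤ T (m ^ 2) := Nat.cast_nonneg _
  calc ((T (m ^ 2) : ℝ) + 2) ^ D ≤ ((T (4 * m ^ 2) : ℝ) + 2) ^ D := pow_le_pow_left₀ (by positivity) (by linarith) D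
    _ ≤ ((T (4 * m ^ 2) : ℝ) + 2) ^ (D + 1) := pow_le_pow_right₀ (by linarith) (by omega)
    _ ≤ ((m ^ 2 : ℕ) : ℝ) ^ (ε / 2) := h2
    _ = (m : ℝ) ^ ε := by
        push_cast
        rw [← Real.rpow_natCast, ← Real.rpow_mul (by linarith)]
        congr 1
        push_cast
        ring

lemma nov {δ : ℝ} {ω : Ω} {n₀ : ℕ} (h : ∀ n, n₀ ≤ n → ω ∉ VD μ ℱ A a δ n) {t : ℕ} (ht : n₀ ≤ t) (j : ℕ) :
    ω ∉ WV (VD μ ℱ A a δ) t j := by
  rintro ⟨n, h1, h2, h3⟩
  exact h n (ht.trans h1) h3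

set_option maxHeartbeats 4000000 in
/-- **Upper bound** for the least multiplier. -/
theorem hit (ε : ℝ) (hε : 0 < ε) (hε1 : ε ≤ 1) : ∃ u : ℕ, ∀ (Ω : Type) (m0 : MeasurableSpace Ω) (μ : Measure Ω)
    (_ : IsProbabilityMeasure μ) (ℱ : Filtration ℕ m0) (A : ℕ → Set Ω) (T : ℕ → ℕ),
    Model μ ℱ A (aT T) → Monotone T → Small T →
      ∀ᵐ ω ∂μ, ∀ᶠ m : ℕ in atTop, ∃ k : ℕ, 1 ≤ k ∧
        (k : ℝ) ≤ max ((1 / dT T + ε) * Real.log m ^ 2) (((T (m ^ 2) : ℝ) + 2) ^ u) ∧ ω ∈ A (ap m k) := by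
  obtain ⟨δ, hδ, hδ1⟩ : ∃ δ : ℝ, 0 < δ ∧ δ = ε / 8 := ⟨ε / 8, by positivity, rfl⟩
  obtain ⟨u, η, hη, hη1, H⟩ := amass δ hδ (by linarith)
  refine ⟨u + 1, ?_⟩
  intro Ω m0 μ _ ℱ A T hM hT hTs
  obtain ⟨X, hX⟩ : ∃ X : ℕ → ℝ, X = fun m : ℕ => max ((1 / dT T + ε) * Real.log (m : ℝ) ^ 2)
      (((T (m ^ 2) : ℝ) + 2) ^ (u + 1)) :=
    ⟨_, rfl⟩
  have hdT := dT_pos T
  obtain ⟨d, hd⟩ : ∃ d, d = dT T := ⟨_, rfl⟩
  have e1 := (aT_tendsto T hTs).eventually (eventually_le_nhds (show (0 : ℝ) < 1 by norm_num))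
  obtain ⟨n₁, hn₁⟩ := eventually_atTop.1 e1
  -- the bound for the probabilities
  have hb : ∀ᶠ m : ℕ in atTop, μ.real (No A m ⌊X m⌋₊ \ WV (VD μ ℱ A (aT T) δ) (2 * m) (2 * ⌊X m⌋₊ * m)) ≤
      (m : ℝ) ^ (-(1 + ε / 4)) := by
    filter_upwards [H T hT hTs, eventually_ge_atTop n₁, eventually_ge_atTop 2,
      rpow_log_sq (η := η) (C := 1 / dT T + ε) hη, T_sq T hT hTs (u + 1) hη,
      tlog.eventually_ge_atTop (16 / ε + 1)] with m g1 g2 g3 g4 g5 g6
    have hm2 : (2 : ℝ) ≤ m := by exact_mod_cast g3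
    obtain ⟨K, hK⟩ : ∃ K, K = ⌊X m⌋₊ := ⟨_, rfl⟩
    rw [← hK]
    obtain ⟨L, hL⟩ : ∃ L, L = Real.log (m : ℝ) := ⟨_, rfl⟩
    rw [← hL] at g6
    have hT0 : (0 : ℝ) ≤ T (m ^ 2) := Nat.cast_nonneg _
    have hL1 : 1 ≤ L := by
      have : 0 < 16 / ε := by positivity
      linarith
    have hεL : 16 ≤ ε * L := by
      have h1 := mul_le_mul_of_nonneg_left g6 hε.le
      have h2 : ε * (16 / ε + 1) = 16 + ε := by field_simp
      linarith
    have hX0 : (0 : ℝ) ≤ X m := by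
      rw [hX]; exact le_trans (by positivity) (le_max_right _ _)
    have hKX : (K : ℝ) ≤ X m := by rw [hK]; exact Nat.floor_le hX0
    have hKX' : X m - 1 ≤ K := by rw [hK]; linarith [Nat.lt_floor_add_one (X m)]
    have hK1 : ((T (m ^ 2) : ℝ) + 2) ^ u ≤ K := by
      refine le_trans ?_ hKX'
      have h1 : ((T (m ^ 2) : ℝ) + 2) ^ (u + 1) ≤ X m := by rw [hX]; exact le_max_right _ _
      have h2 : (1 : ℝ) ≤ ((T (m ^ 2) : ℝ) + 2) ^ u := one_le_pow₀ (by linarith)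
      rw [pow_succ] at h1
      nlinarith
    have hK2 : (K : ℝ) ≤ (m : ℝ) ^ η := by
      refine hKX.trans ?_
      rw [hX]
      exact max_le g4 g5
    obtain ⟨s1, -⟩ := g1 K hK1 hK2
    have h3 := no_le (μ := μ) hM.adapted (aT_nonneg T) hδ (by linarith) (m := m) (by omega) K
      (fun n hn => hn₁ n (g2.trans hn))
    refine h3.trans ?_
    rw [Real.rpow_def_of_pos (by linarith)]
    apply Real.exp_le_exp.2
    rw [← hL] at s1 ⊢
    have h4 : (1 / d + ε) * L ^ 2 - 1 ≤ K := by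
      refine le_trans ?_ hKX'
      rw [hX, hd, hL]
      simp only
      linarith [le_max_left ((1 / dT T + ε) * Real.log m ^ 2) (((T (m ^ 2) : ℝ) + 2) ^ (u + 1))]
    rw [← hd] at s1 hdT
    have hd0 : 0 < d := by linarith
    have h5 : (1 + ε) * L ^ 2 - 2 ≤ d * K := by
      have h6 := mul_le_mul_of_nonneg_left h4 hd0.le
      have e : d * ((1 / d + ε) * L ^ 2 - 1) = (1 + d * ε) * L ^ 2 - d := by field_simp
      rw [e] at h6
      have h7 : (1 + ε) * L ^ 2 ≤ (1 + d * ε) * L ^ 2 := by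
        apply mul_le_mul_of_nonneg_right _ (by positivity)
        nlinarith
      linarith
    have h6 : (1 + ε) * L - 2 ≤ d * K / L := by
      rw [le_div_iff₀ (by linarith)]
      nlinarith
    have h7 : (1 - δ) * ((1 - δ) * ((1 + ε) * L - 2)) ≤ (1 - δ) * ∑ k ∈ Finset.Ioc 0 K, aT T (ap m k) := by
      apply mul_le_mul_of_nonneg_left _ (by linarith)
      exact (mul_le_mul_of_nonneg_left h6 (by linarith)).trans s1
    have h8 : (1 + ε / 4) * L ≤ (1 - δ) * ((1 - δ) * ((1 + ε) * L - 2)) := by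
      rw [hδ1]
      have h9 : (1 - ε / 8) * (1 - ε / 8) ≥ 1 - ε / 4 := by nlinarith
      have h10 : (1 + ε / 2) * L ≤ (1 - ε / 8) * (1 - ε / 8) * ((1 + ε) * L) := by
        have h11 : (1 - ε / 4) * (1 + ε) ≥ 1 + ε / 2 := by nlinarith
        calc (1 + ε / 2) * L ≤ (1 - ε / 4) * (1 + ε) * L := mul_le_mul_of_nonneg_right h11 (by linarith)
          _ = (1 - ε / 4) * ((1 + ε) * L) := by ring
          _ ≤ _ := mul_le_mul_of_nonneg_right h9 (by positivity)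
      have h12 : (1 - ε / 8) * (1 - ε / 8) ≤ 1 := by nlinarith
      nlinarith
    linarith
  have hsum : Summable (fun m : ℕ => (m : ℝ) ^ (-(1 + ε / 4))) := Real.summable_nat_rpow.2 (by linarith)
  filter_upwards [bc hsum hb, no_VD hM hδ] with ω h1 h2
  obtain ⟨n₀, hn₀⟩ := h2
  filter_upwards [h1, eventually_ge_atTop n₀] with m g1 g2
  have g3 := nov hn₀ (show n₀ ≤ 2 * m by omega) (2 * ⌊X m⌋₊ * m)
  have g4 : ω ∉ No A m ⌊X m⌋₊ := fun hc => g1 ⟨hc, g3⟩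
  simp only [No, mem_ofPred_eq, not_forall, not_not] at g4
  obtain ⟨k, hk1, hk2, hk3⟩ := g4
  refine ⟨k, hk1, ?_, hk3⟩
  have hX0 : (0 : ℝ) ≤ X m := by
    rw [hX]; exact le_trans (by positivity) (le_max_right _ _)
  have h5 : (k : ℝ) ≤ X m := by
    have : (k : ℝ) ≤ (⌊X m⌋₊ : ℝ) := by exact_mod_cast hk2
    exact this.trans (Nat.floor_le hX0)
  rw [hX] at h5
  exact h5

end Pool.Agent.U462.Mul
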