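import Mathlib
import Pool.Agent.U462.Gap.Win

set_option autoImplicit false
set_option linter.unusedSectionVars false

/-! # Product martingales of interleaved families of tests in adapted random sets -/

open MeasureTheory Filter Set
open scoped ENNReal Topology

namespace Pool.Agent.U462.Mul

open Pool.Agent.R528.RM (dens WV dens_meas lower_meas upper_meas WV_meas)
open Pool.Agent.U462.Gap (one_sub_ge)

variable {Ω : Type} {m0 : MeasurableSpace Ω} {μ : Measure Ω} [IsProbabilityMeasure μ]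
  {ℱ : Filtration ℕ m0} {A : ℕ → Set Ω}

/-- the indicator of `n ∈ A` -/
noncomputable def Ix (A : ℕ → Set Ω) (n : ℕ) (ω : Ω) : ℝ := (A n).indicator (fun _ => (1 : ℝ)) ω

lemma Ix_of_mem {n : ℕ} {ω : Ω} (h : ω ∈ A n) : Ix A n ω = 1 := by
  unfold Ix; rw [Set.indicator_of_mem h]

lemma Ix_of_notMem {n : ℕ} {ω : Ω} (h : ω ∉ A n) : Ix A n ω = 0 := by
  unfold Ix; rw [Set.indicator_of_notMem h]

lemma Ix_meas (hA : ∀ n, MeasurableSet[ℱ n] (A n)) (n : ℕ) : StronglyMeasurable[ℱ n] (Ix A n) :=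
  stronglyMeasurable_const.indicator (hA n)

lemma Ix_bd (n : ℕ) (ω : Ω) : 0 ≤ Ix A n ω ∧ Ix A n ω ≤ 1 := by
  by_cases h : ω ∈ A n
  · rw [Ix_of_mem h]; norm_num
  · rw [Ix_of_notMem h]; norm_num

/-- the conditional probability in an integral -/
lemma int_dens (hA : ∀ n, MeasurableSet[ℱ n] (A n)) (n : ℕ) {F : Ω → ℝ} (hF : StronglyMeasurable[ℱ n] F)
    {C : ℝ} (hC : ∀ ω, |F ω| ≤ C) : ∫ ω, F ω * Ix A (n + 1) ω ∂μ = ∫ ω, F ω * dens μ ℱ A n ω ∂μ := by
  have hA' : MeasurableSet (A (n + 1)) := ℱ.le (n + 1) _ (hA (n + 1))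
  have hI : Integrable (Ix A (n + 1)) μ := (integrable_const (1 : ℝ)).indicator hA'
  have hFI : Integrable (F * Ix A (n + 1)) μ := by
    refine hI.bdd_mul (c := C) ((hF.mono (ℱ.le n)).aestronglyMeasurable) ?_
    exact Eventually.of_forall fun ω => by rw [Real.norm_eq_abs]; exact hC ω
  have h1 := condExp_mul_of_stronglyMeasurable_left (μ := μ) hF hFI hI
  have h2 : ∫ ω, (μ[F * Ix A (n + 1) | ℱ n]) ω ∂μ = ∫ ω, (F * Ix A (n + 1)) ω ∂μ := integral_condExp (ℱ.le n)
  have h3 : ∫ ω, F ω * Ix A (n + 1) ω ∂μ = ∫ ω, (F * Ix A (n + 1)) ω ∂μ := rfl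
  rw [h3, ← h2]
  refine integral_congr_ae ?_
  filter_upwards [h1] with ω hω
  rw [hω]
  rfl

open Classical in
/-- the factor of the step `n → n + 1`, for the test prescribed by `mode (n + 1)` -/
noncomputable def stp (μ : Measure Ω) (ℱ : Filtration ℕ m0) (A V : ℕ → Set Ω) (mode : ℕ → Option Bool)
    (n : ℕ) (ω : Ω) : ℝ :=
  if ω ∈ V n then 1 else
    match mode (n + 1) with
    | none => 1
    | some true => Ix A (n + 1) ω / dens μ ℱ A n ω
    | some false => (1 - Ix A (n + 1) ω) / (1 - dens μ ℱ A n ω)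

/-- the bound for one factor -/
noncomputable def bnd (mode : ℕ → Option Bool) (l u : ℕ → ℝ) (m : ℕ) : ℝ :=
  match mode m with
  | none => 1
  | some true => (l m)⁻¹
  | some false => Real.exp (u m + 2 * u m ^ 2)

/-- the assumptions on the conditional probabilities off the violations -/
structure Ok (μ : Measure Ω) (ℱ : Filtration ℕ m0) (A V : ℕ → Set Ω) (mode : ℕ → Option Bool)
    (l u : ℕ → ℝ) (n : ℕ) : Prop where
  tr : mode (n + 1) = some true → 0 < l (n + 1) ∧ l (n + 1) ≤ 1 ∧ ∀ ω, ω ∉ V n → l (n + 1) ≤ dens μ ℱ A n ω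
  fa : mode (n + 1) = some false → 0 ≤ u (n + 1) ∧ u (n + 1) ≤ 1 / 2 ∧ ∀ ω, ω ∉ V n → 0 ≤ dens μ ℱ A n ω ∧
    dens μ ℱ A n ω ≤ u (n + 1)

lemma bnd_ge {V : ℕ → Set Ω} {mode : ℕ → Option Bool} {l u : ℕ → ℝ} {n : ℕ} (h : Ok μ ℱ A V mode l u n) :
    1 ≤ bnd mode l u (n + 1) := by
  unfold bnd
  rcases hm : mode (n + 1) with _ | b
  · simp
  · cases b with
    | true =>
      obtain ⟨h1, h2, -⟩ := h.tr hm
      simpa using (one_le_inv₀ h1).2 h2
    | false =>
      obtain ⟨h1, h2, -⟩ := h.fa hm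
      simp only
      apply Real.one_le_exp
      positivity

lemma stp_bd {V : ℕ → Set Ω} {mode : ℕ → Option Bool} {l u : ℕ → ℝ} {n : ℕ} (h : Ok μ ℱ A V mode l u n) (ω : Ω) :
    0 ≤ stp μ ℱ A V mode n ω ∧ stp μ ℱ A V mode n ω ≤ bnd mode l u (n + 1) := by
  classical
  have hb := bnd_ge h
  unfold stp
  by_cases hV : ω ∈ V n
  · rw [if_pos hV]; exact ⟨zero_le_one, hb⟩
  rw [if_neg hV]
  obtain ⟨i0, i1⟩ := Ix_bd (A := A) (n + 1) ω
  rcases hm : mode (n + 1) with _ | b
  · simp only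
    exact ⟨zero_le_one, hb⟩
  · cases b with
    | true =>
      obtain ⟨h1, h2, h3⟩ := h.tr hm
      have h3 := h3 ω hV
      have hd : 0 < dens μ ℱ A n ω := lt_of_lt_of_le h1 h3
      simp only
      refine ⟨by positivity, ?_⟩
      have e : bnd mode l u (n + 1) = (l (n + 1))⁻¹ := by unfold bnd; rw [hm]
      rw [e, div_le_iff₀ hd]
      have : 1 ≤ (l (n + 1))⁻¹ * dens μ ℱ A n ω := by
        rw [inv_mul_eq_div, le_div_iff₀ h1]; linarith
      linarith
    | false =>
      obtain ⟨h1, h2, h3⟩ := h.fa hm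
      obtain ⟨h4, h5⟩ := h3 ω hV
      have hd : 0 < 1 - dens μ ℱ A n ω := by linarith
      simp only
      refine ⟨div_nonneg (by linarith) hd.le, ?_⟩
      have e : bnd mode l u (n + 1) = Real.exp (u (n + 1) + 2 * u (n + 1) ^ 2) := by unfold bnd; rw [hm]
      rw [e, div_le_iff₀ hd]
      have h6 := one_sub_ge (x := u (n + 1)) h1 h2
      have h7 : Real.exp (-(u (n + 1) + 2 * u (n + 1) ^ 2)) ≤ 1 - dens μ ℱ A n ω := by linarith
      have h8 := mul_le_mul_of_nonneg_left h7 (Real.exp_pos (u (n + 1) + 2 * u (n + 1) ^ 2)).le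
      rw [← Real.exp_add, add_neg_cancel, Real.exp_zero] at h8
      linarith

lemma stp_meas (hA : ∀ n, MeasurableSet[ℱ n] (A n)) {V : ℕ → Set Ω} (hV : ∀ n, MeasurableSet[ℱ n] (V n))
    (mode : ℕ → Option Bool) (n : ℕ) : StronglyMeasurable[ℱ (n + 1)] (stp μ ℱ A V mode n) := by
  classical
  have hVm : MeasurableSet[ℱ (n + 1)] (V n) := ℱ.mono (Nat.le_succ n) _ (hV n)
  have hd : StronglyMeasurable[ℱ (n + 1)] (dens μ ℱ A n) := (dens_meas n).mono (ℱ.mono (Nat.le_succ n))
  have hI : StronglyMeasurable[ℱ (n + 1)] (Ix A (n + 1)) := Ix_meas hA (n + 1)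
  unfold stp
  refine StronglyMeasurable.ite hVm stronglyMeasurable_const ?_
  rcases hm : mode (n + 1) with _ | b
  · exact stronglyMeasurable_const
  · cases b with
    | true => exact hI.div hd
    | false => exact (stronglyMeasurable_const.sub hI).div (stronglyMeasurable_const.sub hd)

/-- one step of the product martingale -/
lemma int_step (hA : ∀ n, MeasurableSet[ℱ n] (A n)) {V : ℕ → Set Ω} (hV : ∀ n, MeasurableSet[ℱ n] (V n))
    {mode : ℕ → Option Bool} {l u : ℕ → ℝ} {n : ℕ} (h : Ok μ ℱ A V mode l u n) {F : Ω → ℝ}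
    (hF : StronglyMeasurable[ℱ n] F) {C : ℝ} (hC : ∀ ω, |F ω| ≤ C) :
    ∫ ω, F ω * stp μ ℱ A V mode n ω ∂μ = ∫ ω, F ω ∂μ := by
  classical
  have hd := dens_meas (μ := μ) (ℱ := ℱ) (A := A) n
  obtain ⟨D, hD⟩ : ∃ D : Ω → ℝ, D = dens μ ℱ A n := ⟨_, rfl⟩
  rw [← hD] at hd
  rcases hm : mode (n + 1) with _ | b
  · -- no test
    refine integral_congr_ae (Eventually.of_forall fun ω => ?_)
    simp only
    unfold stp
    rw [hm]
    split_ifs <;> simp
  have hint : ∀ {G : Ω → ℝ} {K : ℝ}, StronglyMeasurable[ℱ n] G → (∀ ω, |G ω| ≤ K) → Integrable G μ := by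
    intro G K hG hK
    exact Integrable.of_bound ((hG.mono (ℱ.le n)).aestronglyMeasurable) K
      (Eventually.of_forall fun ω => by rw [Real.norm_eq_abs]; exact hK ω)
  have hI : ∀ {G : Ω → ℝ} {K : ℝ}, StronglyMeasurable[ℱ n] G → (∀ ω, |G ω| ≤ K) →
      Integrable (fun ω => G ω * Ix A (n + 1) ω) μ := by
    intro G K hG hK
    have hA' : MeasurableSet (A (n + 1)) := ℱ.le (n + 1) _ (hA (n + 1))
    have hI : Integrable (Ix A (n + 1)) μ := (integrable_const (1 : ℝ)).indicator hA'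
    refine hI.bdd_mul (c := K) ((hG.mono (ℱ.le n)).aestronglyMeasurable) ?_
    exact Eventually.of_forall fun ω => by rw [Real.norm_eq_abs]; exact hK ω
  have hC0 : ∀ ω, 0 ≤ C := fun ω => (abs_nonneg _).trans (hC ω)
  cases b with
  | true =>
    obtain ⟨h1, h2, h3⟩ := h.tr hm
    -- coefficients
    obtain ⟨c, hc⟩ : ∃ c : Ω → ℝ, c = fun ω => if ω ∈ V n then F ω else 0 := ⟨_, rfl⟩
    obtain ⟨d, hdd⟩ : ∃ d : Ω → ℝ, d = fun ω => if ω ∈ V n then 0 else F ω / D ω := ⟨_, rfl⟩
    have hcm : StronglyMeasurable[ℱ n] c := by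
      rw [hc]; exact StronglyMeasurable.ite (hV n) hF stronglyMeasurable_const
    have hdm : StronglyMeasurable[ℱ n] d := by
      rw [hdd]; exact StronglyMeasurable.ite (hV n) stronglyMeasurable_const (hF.div hd)
    have hcb : ∀ ω, |c ω| ≤ C := by
      intro ω
      rw [hc]
      simp only
      split_ifs
      · exact hC ω
      · rw [abs_zero]; exact hC0 ω
    have hdb : ∀ ω, |d ω| ≤ C / l (n + 1) := by
      intro ω
      rw [hdd]
      simp only
      split_ifs with h4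
      · rw [abs_zero]; exact div_nonneg (hC0 ω) h1.le
      · have h5 := h3 ω h4
        rw [← hD] at h5
        have h6 : 0 < D ω := lt_of_lt_of_le h1 h5
        rw [abs_div, abs_of_pos h6]
        exact div_le_div₀ (hC0 ω) (hC ω) h1 h5
    have e1 : ∀ ω, F ω * stp μ ℱ A V mode n ω = c ω + d ω * Ix A (n + 1) ω := by
      intro ω
      rw [hc, hdd]
      unfold stp
      rw [hm, ← hD]
      simp only
      split_ifs <;> ring
    have e2 : ∀ ω, c ω + d ω * D ω = F ω := by
      intro ω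
      rw [hc, hdd]
      simp only
      split_ifs with h4
      · ring
      · have h5 := h3 ω h4
        rw [← hD] at h5
        have h6 : 0 < D ω := lt_of_lt_of_le h1 h5
        field_simp
        ring
    have e3 := int_dens (μ := μ) hA n hdm hdb
    rw [← hD] at e3
    calc ∫ ω, F ω * stp μ ℱ A V mode n ω ∂μ = ∫ ω, (c ω + d ω * Ix A (n + 1) ω) ∂μ :=
          integral_congr_ae (Eventually.of_forall e1)
      _ = ∫ ω, c ω ∂μ + ∫ ω, d ω * Ix A (n + 1) ω ∂μ := integral_add (hint hcm hcb) (hI hdm hdb)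
      _ = ∫ ω, c ω ∂μ + ∫ ω, d ω * D ω ∂μ := by rw [e3]
      _ = ∫ ω, (c ω + d ω * D ω) ∂μ := by
          refine (integral_add (hint hcm hcb) ?_).symm
          have e4 : (fun ω => d ω * D ω) = fun ω => F ω - c ω := by
            funext ω
            linarith [e2 ω]
          rw [e4]
          exact (hint hF hC).sub (hint hcm hcb)
      _ = ∫ ω, F ω ∂μ := integral_congr_ae (Eventually.of_forall e2)
  | false =>
    obtain ⟨h1, h2, h3⟩ := h.fa hm
    obtain ⟨c, hc⟩ : ∃ c : Ω → ℝ, c = fun ω => if ω ∈ V n then F ω else F ω / (1 - D ω) := ⟨_, rfl⟩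
    obtain ⟨d, hdd⟩ : ∃ d : Ω → ℝ, d = fun ω => if ω ∈ V n then 0 else -(F ω / (1 - D ω)) := ⟨_, rfl⟩
    have hcm : StronglyMeasurable[ℱ n] c := by
      rw [hc]; exact StronglyMeasurable.ite (hV n) hF (hF.div (stronglyMeasurable_const.sub hd))
    have hdm : StronglyMeasurable[ℱ n] d := by
      rw [hdd]; exact StronglyMeasurable.ite (hV n) stronglyMeasurable_const
        (hF.div (stronglyMeasurable_const.sub hd)).neg
    have hq : ∀ ω, ω ∉ V n → 1 / 2 ≤ 1 - D ω := by
      intro ω hω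
      have := (h3 ω hω).2
      rw [← hD] at this
      linarith
    have hb0 : ∀ ω, ω ∉ V n → |F ω / (1 - D ω)| ≤ 2 * C := by
      intro ω hω
      have h6 : 0 < 1 - D ω := by linarith [hq ω hω]
      rw [abs_div, abs_of_pos h6, div_le_iff₀ h6]
      have := hC ω
      nlinarith [hq ω hω, hC0 ω]
    have hcb : ∀ ω, |c ω| ≤ 2 * C := by
      intro ω
      rw [hc]
      simp only
      split_ifs with h4
      · linarith [hC ω, hC0 ω]
      · exact hb0 ω h4
    have hdb : ∀ ω, |d ω| ≤ 2 * C := by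
      intro ω
      rw [hdd]
      simp only
      split_ifs with h4
      · rw [abs_zero]; linarith [hC0 ω]
      · rw [abs_neg]; exact hb0 ω h4
    have e1 : ∀ ω, F ω * stp μ ℱ A V mode n ω = c ω + d ω * Ix A (n + 1) ω := by
      intro ω
      rw [hc, hdd]
      unfold stp
      rw [hm, ← hD]
      simp only
      split_ifs <;> ring
    have e2 : ∀ ω, c ω + d ω * D ω = F ω := by
      intro ω
      rw [hc, hdd]
      simp only
      split_ifs with h4
      · ring
      · have h6 : 0 < 1 - D ω := by linarith [hq ω h4]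
        field_simp
        ring
    have e3 := int_dens (μ := μ) hA n hdm hdb
    rw [← hD] at e3
    calc ∫ ω, F ω * stp μ ℱ A V mode n ω ∂μ = ∫ ω, (c ω + d ω * Ix A (n + 1) ω) ∂μ :=
          integral_congr_ae (Eventually.of_forall e1)
      _ = ∫ ω, c ω ∂μ + ∫ ω, d ω * Ix A (n + 1) ω ∂μ := integral_add (hint hcm hcb) (hI hdm hdb)
      _ = ∫ ω, c ω ∂μ + ∫ ω, d ω * D ω ∂μ := by rw [e3]
      _ = ∫ ω, (c ω + d ω * D ω) ∂μ := by
          refine (integral_add (hint hcm hcb) ?_).symm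
          have e4 : (fun ω => d ω * D ω) = fun ω => F ω - c ω := by
            funext ω
            linarith [e2 ω]
          rw [e4]
          exact (hint hF hC).sub (hint hcm hcb)
      _ = ∫ ω, F ω ∂μ := integral_congr_ae (Eventually.of_forall e2)

/-- the product of the factors over `(t, t + j]` -/
noncomputable def ZP (μ : Measure Ω) (ℱ : Filtration ℕ m0) (A V : ℕ → Set Ω) (mode : ℕ → Option Bool)
    (t j : ℕ) (ω : Ω) : ℝ := ∏ i ∈ Finset.range j, stp μ ℱ A V mode (t + i) ω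

lemma ZP_bd {V : ℕ → Set Ω} {mode : ℕ → Option Bool} {l u : ℕ → ℝ} {t : ℕ} (j : ℕ)
    (h : ∀ i < j, Ok μ ℱ A V mode l u (t + i)) (ω : Ω) :
    0 ≤ ZP μ ℱ A V mode t j ω ∧ ZP μ ℱ A V mode t j ω ≤ ∏ i ∈ Finset.range j, bnd mode l u (t + i + 1) := by
  unfold ZP
  constructor
  · exact Finset.prod_nonneg fun i hi => (stp_bd (h i (Finset.mem_range.1 hi)) ω).1
  · exact Finset.prod_le_prod (fun i hi => (stp_bd (h i (Finset.mem_range.1 hi)) ω).1)
      (fun i hi => (stp_bd (h i (Finset.mem_range.1 hi)) ω).2)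

lemma ZP_meas (hA : ∀ n, MeasurableSet[ℱ n] (A n)) {V : ℕ → Set Ω} (hV : ∀ n, MeasurableSet[ℱ n] (V n))
    (mode : ℕ → Option Bool) (t j : ℕ) : StronglyMeasurable[ℱ (t + j)] (ZP μ ℱ A V mode t j) := by
  induction j with
  | zero =>
    have : ZP μ ℱ A V mode t 0 = fun _ => 1 := by
      funext ω; simp [ZP]
    rw [this]
    exact stronglyMeasurable_const
  | succ j ih =>
    have : ZP μ ℱ A V mode t (j + 1) = fun ω => ZP μ ℱ A V mode t j ω * stp μ ℱ A V mode (t + j) ω := by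
      funext ω
      unfold ZP
      rw [Finset.prod_range_succ]
    rw [this]
    exact (ih.mono (ℱ.mono (by omega))).mul (stp_meas hA hV mode (t + j))

/-- the expectation of the product is `1` -/
theorem int_ZP (hA : ∀ n, MeasurableSet[ℱ n] (A n)) {V : ℕ → Set Ω} (hV : ∀ n, MeasurableSet[ℱ n] (V n))
    {mode : ℕ → Option Bool} {l u : ℕ → ℝ} {t : ℕ} (j : ℕ) (h : ∀ i < j, Ok μ ℱ A V mode l u (t + i)) :
    ∫ ω, ZP μ ℱ A V mode t j ω ∂μ = 1 := by
  induction j with
  | zero => simp [ZP]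
  | succ j ih =>
    have ih := ih (fun i hi => h i (by omega))
    have h1 := int_step hA hV (h j (by omega)) (ZP_meas hA hV mode t j)
      (C := ∏ i ∈ Finset.range j, bnd mode l u (t + i + 1)) (fun ω => by
        obtain ⟨g1, g2⟩ := ZP_bd j (fun i hi => h i (by omega)) ω
        rw [abs_of_nonneg g1]; exact g2)
    rw [ih] at h1
    rw [← h1]
    refine integral_congr_ae (Eventually.of_forall fun ω => ?_)
    simp only
    unfold ZP
    rw [Finset.prod_range_succ]

/-- the union of two systems of tests -/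
def un (m1 m2 : ℕ → Option Bool) (n : ℕ) : Option Bool :=
  match m1 n with
  | none => m2 n
  | some b => some b

lemma ZP_mul {V : ℕ → Set Ω} {m1 m2 : ℕ → Option Bool} (h : ∀ n, m1 n = none ∨ m2 n = none) (t j : ℕ) (ω : Ω) :
    ZP μ ℱ A V m1 t j ω * ZP μ ℱ A V m2 t j ω = ZP μ ℱ A V (un m1 m2) t j ω := by
  unfold ZP
  rw [← Finset.prod_mul_distrib]
  refine Finset.prod_congr rfl fun i _ => ?_
  unfold stp un
  by_cases hV : ω ∈ V (t + i)
  · simp [hV]
  · simp only [if_neg hV]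
    rcases h (t + i + 1) with g | g
    · rw [g]; simp
    · rw [g]
      rcases m1 (t + i + 1) with _ | b
      · simp
      · cases b <;> simp

lemma un_ok {V : ℕ → Set Ω} {m1 m2 : ℕ → Option Bool} {l u : ℕ → ℝ} {n : ℕ}
    (h1 : Ok μ ℱ A V m1 l u n) (h2 : Ok μ ℱ A V m2 l u n) : Ok μ ℱ A V (un m1 m2) l u n := by
  constructor
  · intro h
    unfold un at h
    rcases hm : m1 (n + 1) with _ | b
    · rw [hm] at h; exact h2.tr h
    · rw [hm] at h
      simp only at h
      exact h1.tr (by rw [hm, h])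
  · intro h
    unfold un at h
    rcases hm : m1 (n + 1) with _ | b
    · rw [hm] at h; exact h2.fa h
    · rw [hm] at h
      simp only at h
      exact h1.fa (by rw [hm, h])

/-- without violations, a positive product means that all the tests have the prescribed results -/
lemma of_ZP_ne {V : ℕ → Set Ω} {mode : ℕ → Option Bool} {t j : ℕ} {ω : Ω}
    (h : ZP μ ℱ A V mode t j ω ≠ 0) (hω : ω ∉ WV V t j) {m : ℕ} (h1 : t < m) (h2 : m ≤ t + j) :
    (mode m = some true → ω ∈ A m) ∧ (mode m = some false → ω ∉ A m) := by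
  obtain ⟨i, hi⟩ : ∃ i, m = t + i + 1 := ⟨m - t - 1, by omega⟩
  have hij : i < j := by omega
  have hV : ω ∉ V (t + i) := by
    intro hc
    exact hω ⟨t + i, by omega, by omega, hc⟩
  have h3 : stp μ ℱ A V mode (t + i) ω ≠ 0 := by
    unfold ZP at h
    rw [Finset.prod_ne_zero_iff] at h
    exact h i (Finset.mem_range.2 hij)
  unfold stp at h3
  rw [if_neg hV, ← hi] at h3
  constructor
  · intro hm
    rw [hm] at h3
    by_contra hc
    rw [Ix_of_notMem hc] at h3
    simp at h3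
  · intro hm hc
    rw [hm, Ix_of_mem hc] at h3
    simp at h3

/-! ### The second moment method -/

open Classical in
/-- Chebyshev's inequality for a family of bounded, pairwise uncorrelated variables of mean `1`: most of the
time at least `N / (2 B)` of them are positive. -/
theorem second_moment {ι : Type} (S : Finset ι) (Z : ι → Ω → ℝ) {B : ℝ} (hB : 0 < B)
    (hm : ∀ i ∈ S, AEStronglyMeasurable (Z i) μ) (hb : ∀ i ∈ S, ∀ ω, 0 ≤ Z i ω ∧ Z i ω ≤ B)
    (h1 : ∀ i ∈ S, ∫ ω, Z i ω ∂μ = 1) (h2 : ∀ i ∈ S, ∀ j ∈ S, i ≠ j → ∫ ω, Z i ω * Z j ω ∂μ = 1)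
    (hS : S.Nonempty) :
    μ.real {ω | ((S.filter (fun i => 0 < Z i ω)).card : ℝ) < S.card / (2 * B)} ≤ 4 * B / S.card := by
  obtain ⟨N, hN⟩ : ∃ N : ℝ, N = S.card := ⟨_, rfl⟩
  have hN0 : 0 < N := by rw [hN]; exact_mod_cast hS.card_pos
  rw [← hN]
  have hint : ∀ i ∈ S, Integrable (Z i) μ := fun i hi => Integrable.of_bound (hm i hi) B
    (Eventually.of_forall fun ω => by
      rw [Real.norm_eq_abs, abs_of_nonneg (hb i hi ω).1]; exact (hb i hi ω).2)
  have hint2 : ∀ i ∈ S, ∀ j ∈ S, Integrable (fun ω => Z i ω * Z j ω) μ := fun i hi j hj =>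
    Integrable.of_bound ((hm i hi).mul (hm j hj)) (B * B) (Eventually.of_forall fun ω => by
      rw [Real.norm_eq_abs, abs_of_nonneg (mul_nonneg (hb i hi ω).1 (hb j hj ω).1)]
      exact mul_le_mul (hb i hi ω).2 (hb j hj ω).2 (hb j hj ω).1 hB.le)
  obtain ⟨X, hX⟩ : ∃ X : Ω → ℝ, X = fun ω => ∑ i ∈ S, Z i ω := ⟨_, rfl⟩
  have hXint : Integrable X μ := by rw [hX]; exact integrable_finsetSum _ hint
  have hXX : ∀ ω, X ω ^ 2 = ∑ i ∈ S, ∑ j ∈ S, Z i ω * Z j ω := by
    intro ω
    rw [hX]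
    simp only
    rw [sq, Finset.sum_mul_sum]
  have hX2int : Integrable (fun ω => X ω ^ 2) μ := by
    simp only [hXX]
    exact integrable_finsetSum _ fun i hi => integrable_finsetSum _ fun j hj => hint2 i hi j hj
  have hEX : ∫ ω, X ω ∂μ = N := by
    rw [hX, integral_finsetSum _ hint, Finset.sum_congr rfl h1, hN]
    simp
  have hEX2 : ∫ ω, X ω ^ 2 ∂μ ≤ N * B + N * N := by
    simp only [hXX]
    rw [integral_finsetSum _ fun i hi => integrable_finsetSum _ fun j hj => hint2 i hi j hj]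
    have h3 : ∀ i ∈ S, ∫ ω, ∑ j ∈ S, Z i ω * Z j ω ∂μ ≤ B + N := by
      intro i hi
      rw [integral_finsetSum _ fun j hj => hint2 i hi j hj]
      have h4 : ∀ j ∈ S, ∫ ω, Z i ω * Z j ω ∂μ ≤ (if j = i then B else 0) + 1 := by
        intro j hj
        by_cases hij : j = i
        · rw [if_pos hij, hij]
          have h5 : ∫ ω, Z i ω * Z i ω ∂μ ≤ ∫ ω, B * Z i ω ∂μ := by
            refine integral_mono (hint2 i hi i hi) ((hint i hi).const_mul B) fun ω => ?_
            exact mul_le_mul_of_nonneg_right (hb i hi ω).2 (hb i hi ω).1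
          rw [integral_const_mul, h1 i hi, mul_one] at h5
          linarith
        · rw [if_neg hij, h2 i hi j hj (fun h => hij h.symm)]
          linarith
      refine (Finset.sum_le_sum h4).trans ?_
      rw [Finset.sum_add_distrib, Finset.sum_ite_eq' S i]
      simp only [hi, if_true, Finset.sum_const, nsmul_eq_mul, mul_one]
      rw [hN]
    refine (Finset.sum_le_sum h3).trans ?_
    rw [Finset.sum_const, nsmul_eq_mul, ← hN]
    ring_nf
    exact le_rfl
  -- Markov for `(X - N)²`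
  have hYint : Integrable (fun ω => (X ω - N) ^ 2) μ := by
    have : (fun ω => (X ω - N) ^ 2) = fun ω => X ω ^ 2 - 2 * N * X ω + N ^ 2 := by
      funext ω; ring
    rw [this]
    exact (hX2int.sub (hXint.const_mul _)).add (integrable_const _)
  have hY : ∫ ω, (X ω - N) ^ 2 ∂μ ≤ N * B := by
    have : (fun ω => (X ω - N) ^ 2) = fun ω => X ω ^ 2 - 2 * N * X ω + N ^ 2 := by
      funext ω; ring
    rw [this]
    have e1 : ∫ ω, (X ω ^ 2 - 2 * N * X ω + N ^ 2) ∂μ = ∫ ω, (X ω ^ 2 - 2 * N * X ω) ∂μ + ∫ ω, N ^ 2 ∂μ :=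
      integral_add (hX2int.sub (hXint.const_mul _)) (integrable_const _)
    have e2 : ∫ ω, (X ω ^ 2 - 2 * N * X ω) ∂μ = ∫ ω, X ω ^ 2 ∂μ - ∫ ω, 2 * N * X ω ∂μ :=
      integral_sub hX2int (hXint.const_mul _)
    rw [e1, e2, integral_const_mul, hEX]
    simp only [integral_const, probReal_univ, one_smul]
    nlinarith
  have hM := mul_meas_ge_le_integral_of_nonneg (μ := μ) (f := fun ω => (X ω - N) ^ 2)
    (Eventually.of_forall fun ω => sq_nonneg _) hYint (N ^ 2 / 4)
  have hsub : {ω | ((S.filter (fun i => 0 < Z i ω)).card : ℝ) < N / (2 * B)} ⊆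
      {ω | N ^ 2 / 4 ≤ (X ω - N) ^ 2} := by
    intro ω hω
    rw [mem_ofPred_eq] at hω ⊢
    have h3 : X ω ≤ B * (S.filter (fun i => 0 < Z i ω)).card := by
      rw [hX]
      simp only
      rw [← Finset.sum_filter_add_sum_filter_not S (fun i => 0 < Z i ω)]
      have e1 : ∑ i ∈ S.filter (fun i => ¬ 0 < Z i ω), Z i ω = 0 := by
        apply Finset.sum_eq_zero
        intro i hi
        rw [Finset.mem_filter] at hi
        exact le_antisymm (not_lt.1 hi.2) (hb i hi.1 ω).1
      rw [e1, add_zero]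
      have e2 : ∑ i ∈ S.filter (fun i => 0 < Z i ω), Z i ω ≤ ∑ i ∈ S.filter (fun i => 0 < Z i ω), B :=
        Finset.sum_le_sum fun i hi => (hb i (Finset.mem_filter.1 hi).1 ω).2
      rw [Finset.sum_const, nsmul_eq_mul] at e2
      linarith
    have h4 : X ω ≤ N / 2 := by
      refine h3.trans ?_
      have h5 := mul_le_mul_of_nonneg_left hω.le hB.le
      have e : B * (N / (2 * B)) = N / 2 := by field_simp
      linarith
    have h5 : N / 2 ≤ N - X ω := by linarith
    nlinarith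
  have hfin : μ.real {ω | ((S.filter (fun i => 0 < Z i ω)).card : ℝ) < N / (2 * B)} ≤
      μ.real {ω | N ^ 2 / 4 ≤ (X ω - N) ^ 2} := measureReal_mono hsub
  have h6 : N ^ 2 / 4 * μ.real {ω | N ^ 2 / 4 ≤ (X ω - N) ^ 2} ≤ N * B := hM.trans hY
  refine hfin.trans ?_
  rw [le_div_iff₀ hN0]
  have h7 : N ^ 2 / 4 * μ.real {ω | N ^ 2 / 4 ≤ (X ω - N) ^ 2} =
      N / 4 * (μ.real {ω | N ^ 2 / 4 ≤ (X ω - N) ^ 2} * N) := by ring
  rw [h7] at h6
  have h8 : N / 4 * (μ.real {ω | N ^ 2 / 4 ≤ (X ω - N) ^ 2} * N) ≤ N / 4 * (4 * B) := by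
    refine h6.trans (le_of_eq ?_)
    ring
  exact le_of_mul_le_mul_left h8 (by positivity)

end Pool.Agent.U462.Mul
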