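import Mathlib
import Pool.Agent.U462.Mul.Up
import Pool.Agent.U462.Mul.Prod
import Pool.Agent.Helper601.PNT

set_option autoImplicit false
set_option linter.unusedSectionVars false

/-! # The least multiplier: lower bounds, by interleaved tests -/

open MeasureTheory Filter Set
open scoped ENNReal Topology

namespace Pool.Agent.U462.Mul

open Pool.Agent.R528.RM (dens WV dens_meas lower_meas upper_meas WV_meas)
open Pool.Agent.U839.Sv (W W_pos W_ge_one)
open Pool.Agent.U462.Gap (fT aT fT_def' fT_nonneg aT_nonneg aT_tendsto Small tlog Model VD VD_meas no_VD bc markov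
  two_rpow card_block)

variable {Ω : Type} {m0 : MeasurableSpace Ω} {μ : Measure Ω} [IsProbabilityMeasure μ]
  {ℱ : Filtration ℕ m0} {A : ℕ → Set Ω} {a : ℕ → ℝ}

lemma l2pos : 0 < Real.log 2 := Real.log_pos (by norm_num)

/-- the primes of a dyadic block -/
def PB (i : ℕ) : Finset ℕ := (Finset.Ico (2 ^ i) (2 ^ (i + 1))).filter Nat.Prime

lemma PB_card : ∀ᶠ i : ℕ in atTop, (2 : ℝ) ^ i / (4 * i) ≤ (PB i).card := by
  have h0 := Pool.Agent.Helper601.PNT.pi_tendsto.comp (tendsto_natCast_atTop_atTop (R := ℝ))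
  have hp : Tendsto (fun i : ℕ => 2 ^ i) atTop atTop := tendsto_pow_atTop_atTop_of_one_lt (by norm_num)
  have hp' : Tendsto (fun i : ℕ => 2 ^ (i + 1)) atTop atTop := hp.comp (tendsto_add_atTop_nat 1)
  have h1 := (h0.comp hp).eventually_lt_const (show (1 : ℝ) < 9 / 8 by norm_num)
  have h2 := (h0.comp hp').eventually_const_lt (show (7 / 8 : ℝ) < 1 by norm_num)
  filter_upwards [h1, h2, eventually_ge_atTop 16] with i g1 g2 g3
  simp only [Function.comp, Nat.floor_natCast] at g1 g2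
  have hi : (16 : ℝ) ≤ i := by exact_mod_cast g3
  have hl2 := l2pos
  have hl2' := Real.log_two_lt_d9
  have e1 : Real.log ((2 ^ i : ℕ) : ℝ) = i * Real.log 2 := by push_cast; rw [Real.log_pow]
  have e2 : Real.log ((2 ^ (i + 1) : ℕ) : ℝ) = (i + 1) * Real.log 2 := by push_cast; rw [Real.log_pow]; push_cast; ring
  rw [e1] at g1
  rw [e2] at g2
  have hX : (0 : ℝ) < 2 ^ i := by positivity
  have c1 : ((2 ^ i : ℕ) : ℝ) = 2 ^ i := by push_cast; ring
  have c2 : ((2 ^ (i + 1) : ℕ) : ℝ) = 2 * 2 ^ i := by push_cast; ring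
  rw [c1] at g1
  rw [c2] at g2
  rw [div_lt_iff₀ hX] at g1
  rw [lt_div_iff₀ (by positivity)] at g2
  -- counting
  have hcard : ((PB i).card : ℝ) = Nat.primeCounting (2 ^ (i + 1)) - Nat.primeCounting (2 ^ i) := by
    have e3 : (PB i).card + Nat.primeCounting (2 ^ i) = Nat.primeCounting (2 ^ (i + 1)) := by
      have hnp : ∀ j, 2 ≤ j → ¬ (2 ^ j).Prime := fun j hj => Nat.Prime.not_prime_pow hj
      have e4 : ∀ n, Nat.primeCounting n = ((Finset.range (n + 1)).filter Nat.Prime).card := by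
        intro n
        unfold Nat.primeCounting Nat.primeCounting'
        rw [Nat.count_eq_card_filter_range]
      rw [e4, e4]
      unfold PB
      rw [← Finset.card_union_of_disjoint]
      · congr 1
        ext n
        simp only [Finset.mem_union, Finset.mem_filter, Finset.mem_Ico, Finset.mem_range]
        constructor
        · rintro (⟨⟨h3, h4⟩, h5⟩ | ⟨h3, h5⟩)
          · exact ⟨by omega, h5⟩
          · refine ⟨?_, h5⟩
            have : 2 ^ i ≤ 2 ^ (i + 1) := Nat.pow_le_pow_right (by norm_num) (by omega)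
            omega
        · rintro ⟨h3, h5⟩
          rcases Nat.lt_or_ge n (2 ^ i) with h6 | h6
          · right; exact ⟨by omega, h5⟩
          · left
            refine ⟨⟨h6, ?_⟩, h5⟩
            rcases Nat.lt_or_ge n (2 ^ (i + 1)) with h7 | h7
            · exact h7
            · exfalso
              have h8 : n = 2 ^ (i + 1) := by omega
              rw [h8] at h5
              exact hnp (i + 1) (by omega) h5
      · rw [Finset.disjoint_left]
        intro n h3 h4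
        simp only [Finset.mem_filter, Finset.mem_Ico, Finset.mem_range] at h3 h4
        have h8 : n = 2 ^ i := by omega
        have h5 := h3.2
        rw [h8] at h5
        exact hnp i (by omega) h5
    have e5 : ((PB i).card : ℝ) + Nat.primeCounting (2 ^ i) = Nat.primeCounting (2 ^ (i + 1)) := by
      exact_mod_cast e3
    linarith
  rw [hcard, div_le_iff₀ (by positivity)]
  obtain ⟨P1, hP1⟩ : ∃ P1 : ℝ, P1 = Nat.primeCounting (2 ^ i) := ⟨_, rfl⟩
  obtain ⟨P2, hP2⟩ : ∃ P2 : ℝ, P2 = Nat.primeCounting (2 ^ (i + 1)) := ⟨_, rfl⟩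
  rw [← hP1] at g1 ⊢
  rw [← hP2] at g2 ⊢
  -- P1 i log 2 < 9/8 X ; 7/4 X < P2 (i+1) log 2
  have hP2' : 7 / 4 * 2 ^ i * (16 / 17) < P2 * i * Real.log 2 := by
    have h3 : (i + 1 : ℝ) * (16 / 17) ≤ i := by linarith
    have hP20 : 0 < P2 * Real.log 2 := by
      by_contra hc
      push Not at hc
      have : P2 * ((i + 1) * Real.log 2) ≤ 0 := by nlinarith
      nlinarith
    have h4 : P2 * Real.log 2 * ((i + 1) * (16 / 17)) ≤ P2 * Real.log 2 * i := mul_le_mul_of_nonneg_left h3 hP20.le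
    nlinarith
  have h6 : (7 / 4 * (16 / 17) - 9 / 8) * 2 ^ i ≤ (P2 - P1) * i * Real.log 2 := by nlinarith
  have hpos : 0 ≤ (P2 - P1) * i := by
    by_contra hc
    push Not at hc
    have : (P2 - P1) * i * Real.log 2 < 0 := mul_neg_of_neg_of_pos hc hl2
    have h7 : (0 : ℝ) < (7 / 4 * (16 / 17) - 9 / 8) * 2 ^ i := by
      apply mul_pos (by norm_num) hX
    linarith
  nlinarith

lemma prod_shift (f : ℕ → ℝ) (t j : ℕ) : ∏ i ∈ Finset.range j, f (t + i + 1) = ∏ n ∈ Finset.Ioc t (t + j), f n := by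
  induction j with
  | zero => simp
  | succ j ih =>
    rw [Finset.prod_range_succ, ih, ← add_assoc, Finset.prod_Ioc_succ_top (by omega)]

/-- the tests for `p` -/
def mode (p K n : ℕ) : Option Bool := if n = p then some true else if tst p K n then some false else none

lemma mode_true {p K n : ℕ} (h : mode p K n = some true) : n = p := by
  unfold mode at h
  split_ifs at h with h1 h2
  · exact h1
  · simp at h

lemma mode_false {p K n : ℕ} (h : mode p K n = some false) : tst p K n := by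
  unfold mode at h
  split_ifs at h with h1 h2
  · simp at h
  · exact h2

lemma mode_disj {X p q K n : ℕ} (hp : p.Prime) (hq : q.Prime) (hpq : p ≠ q) (hpX : X ≤ p) (hpX2 : p < 2 * X)
    (hqX : X ≤ q) (hqX2 : q < 2 * X) (hK : K < X) : mode p K n = none ∨ mode q K n = none := by
  by_contra hc
  push Not at hc
  obtain ⟨h1, h2⟩ := hc
  have hb : ∀ {r : ℕ}, mode r K n ≠ none → n = r ∨ tst r K n := by
    intro r hr
    unfold mode at hr
    split_ifs at hr with h3 h4
    · exact Or.inl h3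
    · exact Or.inr h4
    · exact absurd rfl hr
  rcases hb h1 with h3 | h3
  · rcases hb h2 with h4 | h4
    · exact hpq (h3.symm.trans h4)
    · have := h4.2.1
      omega
  · rcases hb h2 with h4 | h4
    · have := h3.2.1
      omega
    · obtain ⟨k, k1, k2, k3⟩ := (tst_iff (by omega : 1 ≤ p)).1 h3
      obtain ⟨l, l1, l2, l3⟩ := (tst_iff (by omega : 1 ≤ q)).1 h4
      unfold ap at k3 l3
      have h5 : k * p = l * q := by
        have e1 : 2 * k * p = 2 * (k * p) := by ring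
        have e2 : 2 * l * q = 2 * (l * q) := by ring
        omega
      have h6 : p ∣ l * q := ⟨k, by rw [← h5]; ring⟩
      rcases (Nat.Prime.dvd_mul hp).1 h6 with h7 | h7
      · have := Nat.le_of_dvd (by omega) h7
        omega
      · exact hpq ((Nat.prime_dvd_prime_iff_eq hp hq).1 h7)

lemma bnd_mode_le {p K : ℕ} {l u : ℕ → ℝ} (hu : ∀ n, 0 ≤ u n) (hl : 0 < l p) (n : ℕ) :
    bnd (mode p K) l u n ≤ (if n = p then (l p)⁻¹ else 1) * Real.exp (if tst p K n then u n + 2 * u n ^ 2 else 0) := by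
  unfold bnd
  by_cases h1 : n = p
  · have e : mode p K n = some true := by unfold mode; rw [if_pos h1]
    rw [e, if_pos h1, h1]
    simp only
    have h2 : 1 ≤ Real.exp (if tst p K p then u p + 2 * u p ^ 2 else 0) := by
      apply Real.one_le_exp
      split_ifs
      · have := hu p; positivity
      · exact le_rfl
    have h3 : 0 < (l p)⁻¹ := inv_pos.2 hl
    nlinarith
  · by_cases h2 : tst p K n
    · have e : mode p K n = some false := by unfold mode; rw [if_neg h1, if_pos h2]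
      rw [e, if_neg h1, if_pos h2, one_mul]
    · have e : mode p K n = none := by unfold mode; rw [if_neg h1, if_neg h2]
      rw [e, if_neg h1, if_neg h2, one_mul, Real.exp_zero]

lemma prod_bnd_le {p K t j : ℕ} {l u : ℕ → ℝ} (hu : ∀ n, 0 ≤ u n) (hl : 0 < l p) (hl1 : l p ≤ 1) (hlb : ∀ n, 0 ≤ bnd (mode p K) l u n)
    (hp : 1 ≤ p) (htp : t < p) (hj : ap p K ≤ t + j) :
    ∏ i ∈ Finset.range j, bnd (mode p K) l u (t + i + 1) ≤
      (l p)⁻¹ * Real.exp (∑ k ∈ Finset.Ioc 0 K, (u (ap p k) + 2 * u (ap p k) ^ 2)) := by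
  rw [prod_shift (bnd (mode p K) l u)]
  have h1 : ∏ n ∈ Finset.Ioc t (t + j), bnd (mode p K) l u n ≤ ∏ n ∈ Finset.Ioc t (t + j),
      ((if n = p then (l p)⁻¹ else 1) * Real.exp (if tst p K n then u n + 2 * u n ^ 2 else 0)) :=
    Finset.prod_le_prod (fun n _ => hlb n) (fun n _ => bnd_mode_le hu hl n)
  refine h1.trans ?_
  rw [Finset.prod_mul_distrib, ← Real.exp_sum, sum_ap hp (by omega) hj (fun n => u n + 2 * u n ^ 2)]
  apply mul_le_mul_of_nonneg_right _ (Real.exp_pos _).le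
  rw [Finset.prod_ite_eq']
  split_ifs
  · exact le_rfl
  · exact (one_le_inv₀ hl).2 hl1

lemma poly_pow (C : ℝ) {β : ℝ} (hβ : 0 < β) : ∀ᶠ i : ℕ in atTop, C * (i * (i + 1)) ≤ (2 : ℝ) ^ (β * i) := by
  have hl2 := l2pos
  have h1 := (Real.tendsto_pow_mul_exp_neg_atTop_nhds_zero 2).comp
    ((tendsto_natCast_atTop_atTop (R := ℝ)).const_mul_atTop (show 0 < β * Real.log 2 by positivity))
  have h2 := h1.eventually (eventually_le_nhds (show (0 : ℝ) < (β * Real.log 2) ^ 2 / (2 * |C| + 1) by positivity))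
  filter_upwards [h2, eventually_ge_atTop 1] with i h3 h4
  have hi : (1 : ℝ) ≤ i := by exact_mod_cast h4
  simp only [Function.comp] at h3
  rw [Real.exp_neg, ← div_eq_mul_inv, div_le_iff₀ (Real.exp_pos _)] at h3
  have e1 : (2 : ℝ) ^ (β * i) = Real.exp (β * Real.log 2 * i) := by rw [two_rpow]; congr 1; ring
  rw [e1]
  obtain ⟨E, hE⟩ : ∃ E, E = Real.exp (β * Real.log 2 * i) := ⟨_, rfl⟩
  rw [← hE] at h3 ⊢
  have hb : 0 < (β * Real.log 2) ^ 2 := by positivity
  rw [mul_pow, div_mul_eq_mul_div, le_div_iff₀ (by positivity)] at h3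
  have h5 : (i : ℝ) ^ 2 * (2 * |C| + 1) ≤ E := by
    have h6 : (β * Real.log 2) ^ 2 * ((i : ℝ) ^ 2 * (2 * |C| + 1)) ≤ (β * Real.log 2) ^ 2 * E := by linarith
    exact le_of_mul_le_mul_left h6 hb
  have h7 : C * (i * (i + 1)) ≤ |C| * (2 * (i : ℝ) ^ 2) := by
    have h8 : (i : ℝ) * (i + 1) ≤ 2 * (i : ℝ) ^ 2 := by nlinarith
    calc C * (i * (i + 1)) ≤ |C| * (i * (i + 1)) := mul_le_mul_of_nonneg_right (le_abs_self C) (by positivity)
      _ ≤ _ := mul_le_mul_of_nonneg_left h8 (abs_nonneg C)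
  nlinarith [sq_nonneg (i : ℝ)]

/-- the sieve limits at `m²` if `T` is smaller than every power of `log n` -/
lemma powT_sq (T : ℕ → ℕ) (hTk : ∀ κ : ℝ, 0 < κ → ∀ᶠ n : ℕ in atTop, (T n : ℝ) ≤ Real.log n ^ κ) (u : ℕ) :
    ∀ᶠ m : ℕ in atTop, ((T (m ^ 2) : ℝ) + 2) ^ u ≤ Real.log m := by
  have h1 := Pool.Agent.U462.Uni.powT T (κ := 1 / (4 * (u + 1))) (by positivity) (hTk _ (by positivity)) u
    (e := 1 / 2) (by
      rw [div_mul_eq_mul_div, one_mul, div_lt_iff₀ (by positivity)]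
      linarith)
  have h2 : Tendsto (fun m : ℕ => (m : ℝ) ^ 2 / 4) atTop atTop :=
    ((tendsto_pow_atTop (by norm_num : (2 : ℕ) ≠ 0)).comp tendsto_natCast_atTop_atTop).atTop_div_const (by norm_num)
  filter_upwards [h2.eventually h1, tlog.eventually_ge_atTop 2, eventually_ge_atTop 2] with m h3 h4 h5
  have hm : (2 : ℝ) ≤ m := by exact_mod_cast h5
  have e1 : ⌊4 * ((m : ℝ) ^ 2 / 4)⌋₊ = m ^ 2 := by
    have : 4 * ((m : ℝ) ^ 2 / 4) = ((m ^ 2 : ℕ) : ℝ) := by push_cast; ring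
    rw [this, Nat.floor_natCast]
  rw [e1] at h3
  refine h3.trans ?_
  have h6 : Real.log ((m : ℝ) ^ 2 / 4) ≤ Real.log m ^ 2 := by
    have h7 : Real.log ((m : ℝ) ^ 2 / 4) ≤ Real.log ((m : ℝ) ^ 2) := by
      apply Real.log_le_log (by positivity)
      nlinarith
    rw [Real.log_pow] at h7
    push_cast at h7
    nlinarith
  have h8 : 0 ≤ Real.log ((m : ℝ) ^ 2 / 4) := by
    apply Real.log_nonneg
    rw [le_div_iff₀ (by norm_num)]
    nlinarith
  calc Real.log ((m : ℝ) ^ 2 / 4) ^ (1 / 2 : ℝ) ≤ (Real.log m ^ 2) ^ (1 / 2 : ℝ) :=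
        Real.rpow_le_rpow h8 h6 (by norm_num)
    _ = Real.log m := by
        rw [← Real.sqrt_eq_rpow, Real.sqrt_sq (by linarith)]

lemma T_lt (T : ℕ → ℕ) (hTs : Small T) : ∀ᶠ n : ℕ in atTop, T n < n := by
  filter_upwards [hTs (1 / 2) (by norm_num), eventually_ge_atTop 4] with n h1 h2
  have hn : (4 : ℝ) ≤ n := by exact_mod_cast h2
  have h3 : (n : ℝ) ^ (1 / 2 : ℝ) < n := by
    rw [← Real.sqrt_eq_rpow]
    have h4 : (2 : ℝ) ≤ √n := Real.le_sqrt_of_sq_le (by linarith)
    have h5 : √(n : ℝ) * √n = n := Real.mul_self_sqrt (by linarith)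
    nlinarith
  have : (T n : ℝ) < n := lt_of_le_of_lt h1 h3
  exact_mod_cast this

lemma num1 {δ x : ℝ} (hδ : 0 < δ) (hδ1 : δ ≤ 1 / 8) (h : x ≤ δ / 4) (hx : 0 ≤ x) :
    (1 + δ) * x + 2 * ((1 + δ) * x) ^ 2 ≤ (1 + 3 * δ) * x := by
  have h12 : (1 + δ) * x + 2 * ((1 + δ) * x) ^ 2 = (1 + δ) * x * (1 + 2 * ((1 + δ) * x)) := by ring
  rw [h12]
  have h13 : 2 * ((1 + δ) * x) ≤ (1 + δ) * δ / 2 := by nlinarith
  have h14 : 1 + 2 * ((1 + δ) * x) ≤ 1 + (1 + δ) * δ / 2 := by linarith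
  have h15 : (1 + δ) * x * (1 + 2 * ((1 + δ) * x)) ≤ (1 + δ) * x * (1 + (1 + δ) * δ / 2) :=
    mul_le_mul_of_nonneg_left h14 (by positivity)
  refine h15.trans ?_
  have h17 : (1 + δ) ^ 2 ≤ 2 := by nlinarith
  have h16 : (1 + δ) * (1 + (1 + δ) * δ / 2) ≤ 1 + 3 * δ := by
    have := mul_le_mul_of_nonneg_left h17 hδ.le
    linarith
  calc (1 + δ) * x * (1 + (1 + δ) * δ / 2) = (1 + δ) * (1 + (1 + δ) * δ / 2) * x := by ring
    _ ≤ _ := mul_le_mul_of_nonneg_right h16 hx

lemma num2 {δ i : ℝ} (hδ1 : δ ≤ 1 / 8) (h : 8 ≤ δ * i) (hi : 16 ≤ i) : (i + 1) ^ 2 ≤ (1 + δ) * (i * i) := by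
  nlinarith

lemma num3 {δ : ℝ} (hδ : 0 < δ) (hδ1 : δ ≤ 1 / 8) : (1 + 3 * δ) * (1 + δ) * (1 + δ) ≤ 1 + 15 * δ := by
  nlinarith [mul_pos hδ hδ, mul_pos (mul_pos hδ hδ) hδ]

lemma num4 {c i : ℝ} (hc : 0 < c) (h : 8 ≤ c * i) (hi : 16 ≤ i) :
    (i + 1) * Real.log 2 ≤ c * ((i + 1) * Real.log 2) ^ 2 - 1 := by
  have h12 : 0.69 ≤ Real.log 2 := by have := Real.log_two_gt_d9; linarith
  have h13 : 8 ≤ c * (i + 1) := by nlinarith
  have h14 : 5 ≤ (c * (i + 1)) * Real.log 2 := by nlinarith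
  have h15 : 1 ≤ (i + 1) * Real.log 2 := by nlinarith
  have h11 : c * ((i + 1) * Real.log 2) ^ 2 = (c * (i + 1)) * Real.log 2 * ((i + 1) * Real.log 2) := by ring
  rw [h11]
  nlinarith

lemma num5 {i : ℝ} (hi : 16 ≤ i) : ((i + 1) * Real.log 2) ^ 2 ≤ 4 * (i * Real.log 2) ^ 2 := by
  have hl2 := l2pos
  have h0 : 0 ≤ (i + 1 : ℝ) * Real.log 2 := by positivity
  have : (i + 1 : ℝ) * Real.log 2 ≤ 2 * (i * Real.log 2) := by nlinarith
  calc ((i + 1) * Real.log 2) ^ 2 ≤ (2 * (i * Real.log 2)) ^ 2 := pow_le_pow_left₀ h0 this 2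
    _ = _ := by ring

open Classical in
/-- the survivors of a block -/
noncomputable def SV (A : ℕ → Set Ω) (c : ℝ) (S : Finset ℕ) (ω : Ω) : Finset ℕ :=
  S.filter (fun m => ∀ k : ℕ, 1 ≤ k → (k : ℝ) ≤ c * Real.log m ^ 2 → ω ∉ A (ap m k))

set_option maxHeartbeats 4000000 in
open Classical in
/-- **Lower bound** for the number of elements with a large least multiplier. -/
theorem count_low {T : ℕ → ℕ} (hM : Model μ ℱ A (aT T)) (hT : Monotone T) (hTs : Small T)
    (hTk : ∀ κ : ℝ, 0 < κ → ∀ᶠ n : ℕ in atTop, (T n : ℝ) ≤ Real.log n ^ κ) {lam : ℝ} (hl : 0 < lam) (hl1 : lam < 1)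
    {ε : ℝ} (hε : 0 < ε) : ∀ᵐ ω ∂μ, ∀ᶠ i : ℕ in atTop,
      (2 : ℝ) ^ ((1 - lam - ε) * i) ≤ (SV A (lam / dT T) ((PB i).filter (fun p => ω ∈ A p)) ω).card := by
  have hl2 := l2pos
  have hl2' := Real.log_two_lt_d9
  obtain ⟨δ, hδ, hδ1, hδ2, hδ3⟩ : ∃ δ : ℝ, 0 < δ ∧ δ ≤ 1 / 8 ∧ 15 * δ ≤ (1 - lam) / 2 ∧ 15 * δ ≤ ε / 2 := by
    refine ⟨min (1 / 8) (min ((1 - lam) / 30) (ε / 30)), lt_min (by norm_num) (lt_min (by linarith) (by linarith)),
      min_le_left _ _, ?_, ?_⟩
    · have h1 := (min_le_right (1 / 8) (min ((1 - lam) / 30) (ε / 30))).trans (min_le_left _ _)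
      linarith
    · have h1 := (min_le_right (1 / 8) (min ((1 - lam) / 30) (ε / 30))).trans (min_le_right _ _)
      linarith
  obtain ⟨u₀, η, hη, hη1, H⟩ := amass δ hδ (by linarith)
  have H := H T hT hTs
  have hdT := dT_pos T
  obtain ⟨d, hd⟩ : ∃ d, d = dT T := ⟨_, rfl⟩
  rw [← hd] at hdT H ⊢
  have hd0 : 0 < d := by linarith
  obtain ⟨V, hVd⟩ : ∃ V, V = VD μ ℱ A (aT T) δ := ⟨_, rfl⟩
  have hV : ∀ n, MeasurableSet[ℱ n] (V n) := fun n => by rw [hVd]; exact VD_meas δ n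
  obtain ⟨K, hKd⟩ : ∃ K : ℕ → ℕ, K = fun i : ℕ => ⌊lam / d * (((i : ℝ) + 1) * Real.log 2) ^ 2⌋₊ := ⟨_, rfl⟩
  obtain ⟨l, hld⟩ : ∃ l : ℕ → ℝ, l = fun n => (1 - δ) * aT T n := ⟨_, rfl⟩
  obtain ⟨u, hud⟩ : ∃ u : ℕ → ℝ, u = fun n => (1 + δ) * aT T n := ⟨_, rfl⟩
  have hu0 : ∀ n, 0 ≤ u n := fun n => by
    rw [hud]; exact mul_nonneg (by linarith) (aT_nonneg T n)
  obtain ⟨J, hJd⟩ : ∃ J : ℕ → ℕ, J = fun i => ap (2 ^ (i + 1)) (K i) + 2 ^ (i + 1) := ⟨_, rfl⟩
  obtain ⟨Z, hZd⟩ : ∃ Z : ℕ → ℕ → Ω → ℝ, Z = fun i p => ZP μ ℱ A V (mode p (K i)) (2 ^ i - 1) (J i) := ⟨_, rfl⟩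
  obtain ⟨B, hBd⟩ : ∃ B : ℕ → ℝ, B = fun i : ℕ => 2 * ((i : ℝ) + 1) * (2 : ℝ) ^ ((lam + 15 * δ) * (i : ℝ)) := ⟨_, rfl⟩
  have hpow : Tendsto (fun i : ℕ => 2 ^ i) atTop atTop := tendsto_pow_atTop_atTop_of_one_lt (by norm_num)
  have e1 := (aT_tendsto T hTs).eventually (eventually_le_nhds (show (0 : ℝ) < δ / 4 by positivity))
  obtain ⟨n₁, hn₁⟩ := eventually_atTop.1 e1
  obtain ⟨n₂, hn₂⟩ := eventually_atTop.1 (H.and ((T_lt T hTs).and (powT_sq T hTk u₀)))
  obtain ⟨n₃, hn₃⟩ := eventually_atTop.1 (rpow_log_sq (η := η) (C := 4) hη)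
  -- everything about one block
  have key : ∀ᶠ i : ℕ in atTop, K i < 2 ^ i ∧ (∀ p ∈ PB i, (∀ n, 2 ^ i - 1 ≤ n → Ok μ ℱ A V (mode p (K i)) l u n) ∧
      (∀ ω, 0 ≤ Z i p ω ∧ Z i p ω ≤ B i)) := by
    have hci : Tendsto (fun i : ℕ => (i : ℝ)) atTop atTop := tendsto_natCast_atTop_atTop
    filter_upwards [hpow.eventually_ge_atTop (max n₁ (max n₂ n₃)), eventually_ge_atTop 16,
      hci.eventually_ge_atTop (8 / δ), hci.eventually_ge_atTop (8 * d / lam + 4)] with i g1 g2 g3 g4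
    have hi16 : (16 : ℝ) ≤ i := by exact_mod_cast g2
    have g1a : n₁ ≤ 2 ^ i := (le_max_left _ _).trans g1
    have g1b : n₂ ≤ 2 ^ i := ((le_max_left _ _).trans (le_max_right _ _)).trans g1
    have g1c : n₃ ≤ 2 ^ i := ((le_max_right _ _).trans (le_max_right _ _)).trans g1
    obtain ⟨Q, hQ⟩ : ∃ Q : ℝ, Q = lam / d * ((i + 1) * Real.log 2) ^ 2 := ⟨_, rfl⟩
    have hQ0 : 0 < Q := by rw [hQ]; positivity
    have hKQ : (K i : ℝ) ≤ Q := by rw [hKd, hQ]; exact Nat.floor_le (by positivity)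
    have hKQ' : Q - 1 ≤ K i := by rw [hKd, hQ]; linarith [Nat.lt_floor_add_one (lam / d * (((i : ℝ) + 1) * Real.log 2) ^ 2)]
    have hlamd : lam / d ≤ 1 := by rw [div_le_one hd0]; linarith
    have hδi : 8 ≤ δ * i := by
      have := mul_le_mul_of_nonneg_left g3 hδ.le
      have e : δ * (8 / δ) = 8 := by field_simp
      linarith
    -- the size of K
    have hlogi : Real.log ((2 ^ i : ℕ) : ℝ) = i * Real.log 2 := by push_cast; rw [Real.log_pow]
    have hQle : Q ≤ 4 * (i * Real.log 2) ^ 2 := by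
      have h1 : (((i : ℝ) + 1) * Real.log 2) ^ 2 ≤ 4 * (i * Real.log 2) ^ 2 := num5 hi16
      rw [hQ]
      calc lam / d * ((i + 1) * Real.log 2) ^ 2 ≤ 1 * ((i + 1) * Real.log 2) ^ 2 :=
            mul_le_mul_of_nonneg_right hlamd (by positivity)
        _ ≤ _ := by rw [one_mul]; exact h1
    have hKη : (K i : ℝ) ≤ ((2 ^ i : ℕ) : ℝ) ^ η := by
      refine hKQ.trans (hQle.trans ?_)
      have := hn₃ (2 ^ i) g1c
      rwa [hlogi] at this
    have hKlt : K i < 2 ^ i := by
      have h1 : ((2 ^ i : ℕ) : ℝ) ^ η < ((2 ^ i : ℕ) : ℝ) := by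
        have h2 : (1 : ℝ) < ((2 ^ i : ℕ) : ℝ) := by
          have : 1 < 2 ^ i := Nat.one_lt_two_pow (by omega)
          exact_mod_cast this
        calc ((2 ^ i : ℕ) : ℝ) ^ η < ((2 ^ i : ℕ) : ℝ) ^ (1 : ℝ) := Real.rpow_lt_rpow_of_exponent_lt h2 (by linarith)
          _ = _ := Real.rpow_one _
      have h3 : (K i : ℝ) < ((2 ^ i : ℕ) : ℝ) := lt_of_le_of_lt hKη h1
      exact_mod_cast h3
    refine ⟨hKlt, fun p hp => ?_⟩
    unfold PB at hp
    rw [Finset.mem_filter, Finset.mem_Ico] at hp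
    obtain ⟨⟨hp1, hp2⟩, hpp⟩ := hp
    have hpR : ((2 ^ i : ℕ) : ℝ) ≤ p := by exact_mod_cast hp1
    have hpR2 : (p : ℝ) ≤ ((2 ^ (i + 1) : ℕ) : ℝ) := by exact_mod_cast hp2.le
    have hp0 : (0 : ℝ) < p := by exact_mod_cast hpp.pos
    have hlp1 : i * Real.log 2 ≤ Real.log p := by
      rw [← hlogi]
      exact Real.log_le_log (by positivity) hpR
    have hlp2 : Real.log p ≤ (i + 1) * Real.log 2 := by
      have h1 := Real.log_le_log hp0 hpR2
      have e2 : Real.log ((2 ^ (i + 1) : ℕ) : ℝ) = (i + 1) * Real.log 2 := by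
        push_cast; rw [Real.log_pow]; push_cast; ring
      rwa [e2] at h1
    have hlp0 : 0 < Real.log p := lt_of_lt_of_le (by positivity) hlp1
    obtain ⟨s1, s2, s3⟩ := hn₂ p (g1b.trans hp1)
    -- the value at p
    have hap : 1 / Real.log p ≤ aT T p := by
      unfold aT
      apply div_le_div_of_nonneg_right _ hlp0.le
      rw [fT_def', if_pos]
      · exact W_ge_one _
      · intro q hq hqt hqd
        have := (Nat.prime_dvd_prime_iff_eq hq hpp).1 hqd
        omega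
    have hlp : 0 < l p := by
      rw [hld]
      have : 0 < 1 / Real.log (p : ℝ) := by positivity
      exact mul_pos (by linarith) (by linarith)
    have ha4 : ∀ n, 2 ^ i ≤ n → aT T n ≤ δ / 4 := fun n hn => hn₁ n (g1a.trans hn)
    have hOk : ∀ n, 2 ^ i - 1 ≤ n → Ok μ ℱ A V (mode p (K i)) l u n := by
      intro n hn
      have h2i : 1 ≤ 2 ^ i := Nat.one_le_two_pow
      have hn' : 2 ^ i ≤ n + 1 := by omega
      have h1 := ha4 (n + 1) hn'
      have h2 := aT_nonneg T (n + 1)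
      constructor
      · intro hm
        have h3 := mode_true hm
        refine ⟨by rw [h3]; exact hlp, ?_, ?_⟩
        · rw [hld]; simp only; nlinarith
        · intro ω hω
          rw [hVd] at hω
          simp only [VD, mem_ofPred_eq, not_not] at hω
          have := (abs_le.1 hω).1
          rw [hld]; simp only; linarith
      · intro hm
        refine ⟨hu0 _, ?_, ?_⟩
        · rw [hud]; simp only; nlinarith
        · intro ω hω
          rw [hVd] at hω
          simp only [VD, mem_ofPred_eq, not_not] at hω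
          have := abs_le.1 hω
          rw [hud]; simp only
          constructor
          · nlinarith
          · linarith
    refine ⟨hOk, fun ω => ?_⟩
    have h2i : 1 ≤ 2 ^ i := Nat.one_le_two_pow
    have hZb := ZP_bd (μ := μ) (ℱ := ℱ) (A := A) (V := V) (mode := mode p (K i)) (l := l) (u := u) (t := 2 ^ i - 1) (J i)
      (fun r _ => hOk _ (by omega)) ω
    rw [hZd]
    refine ⟨hZb.1, hZb.2.trans ?_⟩
    have hl1' : l p ≤ 1 := by
      rw [hld]; simp only
      have := ha4 p hp1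
      have := aT_nonneg T p
      nlinarith
    have hpb := prod_bnd_le (p := p) (K := K i) (t := 2 ^ i - 1) (j := J i) (l := l) (u := u) hu0 hlp hl1' (by
      intro n
      unfold bnd
      rcases hm : mode p (K i) n with _ | b
      · simp
      · cases b with
        | true =>
          simp only
          rw [hld]
          exact inv_nonneg.2 (mul_nonneg (by linarith) (aT_nonneg T n))
        | false => simp only; exact (Real.exp_pos _).le) (by omega) (by omega) (by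
      rw [hJd]
      simp only
      have h5 : ap p (K i) ≤ ap (2 ^ (i + 1)) (K i) := by
        unfold ap
        have := Nat.mul_le_mul_left (2 * K i) hp2.le
        omega
      omega)
    refine hpb.trans ?_
    -- the numerical bound
    have h6 : (l p)⁻¹ ≤ 2 * (i + 1) := by
      have h7 : 1 / (2 * (i + 1) : ℝ) ≤ l p := by
        rw [hld]; simp only
        have h8 : 1 / (i + 1 : ℝ) ≤ aT T p := by
          refine le_trans ?_ hap
          apply one_div_le_one_div_of_le hlp0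
          nlinarith
        have h9 : 0 < 1 / (i + 1 : ℝ) := by positivity
        have h10 : 1 / (2 * (i + 1) : ℝ) = 1 / 2 * (1 / (i + 1)) := by field_simp
        rw [h10]
        nlinarith
      rw [inv_le_comm₀ hlp (by positivity), inv_eq_one_div]
      exact h7
    have h7 : ∑ k ∈ Finset.Ioc 0 (K i), (u (ap p k) + 2 * u (ap p k) ^ 2) ≤ (lam + 15 * δ) * i * Real.log 2 := by
      have hK1 : ((T (p ^ 2) : ℝ) + 2) ^ u₀ ≤ K i := by
        refine s3.trans (hlp2.trans (le_trans ?_ hKQ'))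
        -- (i+1) log 2 ≤ Q - 1
        have h8 : (8 * d / lam + 4) * (lam / d) = 8 + 4 * (lam / d) := by field_simp
        have h9 : 8 ≤ lam / d * i := by
          have h10 := mul_le_mul_of_nonneg_right g4 (show 0 ≤ lam / d by positivity)
          rw [h8] at h10
          have : 0 < lam / d := by positivity
          linarith
        rw [hQ]
        exact num4 (by positivity) h9 hi16
      obtain ⟨-, s4⟩ := s1 (K i) hK1 (hKη.trans (Real.rpow_le_rpow (by positivity) hpR hη.le))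
      have s5 := s4 hpp
      have h8 : ∀ k ∈ Finset.Ioc 0 (K i), u (ap p k) + 2 * u (ap p k) ^ 2 ≤ (1 + 3 * δ) * aT T (ap p k) := by
        intro k hk
        rw [Finset.mem_Ioc] at hk
        have h9 : 2 ^ i ≤ ap p k := by
          have : 2 * p * 1 ≤ 2 * p * k := Nat.mul_le_mul_left _ hk.1
          have e : ap p k = 2 * p * k + 1 := by unfold ap; ring
          omega
        have h10 := ha4 _ h9
        have h11 := aT_nonneg T (ap p k)
        rw [hud]; simp only
        exact num1 hδ hδ1 h10 h11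
      refine (Finset.sum_le_sum h8).trans ?_
      rw [← Finset.mul_sum]
      have h9 : d * K i / Real.log p ≤ (1 + δ) * lam * i * Real.log 2 := by
        rw [div_le_iff₀ hlp0]
        have h10 : d * K i ≤ lam * ((i + 1) * Real.log 2) ^ 2 := by
          have h11 := mul_le_mul_of_nonneg_left hKQ hd0.le
          have e : d * Q = lam * ((i + 1) * Real.log 2) ^ 2 := by rw [hQ]; field_simp
          linarith
        refine h10.trans ?_
        have h11 : (i + 1 : ℝ) ^ 2 ≤ (1 + δ) * (i * i) := num2 hδ1 hδi hi16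
        calc lam * ((i + 1) * Real.log 2) ^ 2 = lam * Real.log 2 ^ 2 * (i + 1) ^ 2 := by ring
          _ ≤ lam * Real.log 2 ^ 2 * ((1 + δ) * (i * i)) := mul_le_mul_of_nonneg_left h11 (by positivity)
          _ = (1 + δ) * lam * i * Real.log 2 * (i * Real.log 2) := by ring
          _ ≤ _ := mul_le_mul_of_nonneg_left hlp1 (by positivity)
      have h10 : (1 + 3 * δ) * ((1 + δ) * (d * K i / Real.log p)) ≤
          (1 + 3 * δ) * ((1 + δ) * ((1 + δ) * lam * i * Real.log 2)) := by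
        apply mul_le_mul_of_nonneg_left _ (by linarith)
        exact mul_le_mul_of_nonneg_left h9 (by linarith)
      have h11 : (1 + 3 * δ) * ∑ k ∈ Finset.Ioc 0 (K i), aT T (ap p k) ≤ (1 + 3 * δ) * ((1 + δ) * (d * K i / Real.log p)) :=
        mul_le_mul_of_nonneg_left s5 (by linarith)
      refine (h11.trans h10).trans ?_
      have h12 : (1 + 3 * δ) * ((1 + δ) * ((1 + δ) * lam * i * Real.log 2)) =
          ((1 + 3 * δ) * (1 + δ) * (1 + δ) * lam) * (i * Real.log 2) := by ring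
      have h13 : (lam + 15 * δ) * i * Real.log 2 = (lam + 15 * δ) * (i * Real.log 2) := by ring
      rw [h12, h13]
      apply mul_le_mul_of_nonneg_right _ (by positivity)
      have h14 : (1 + 3 * δ) * (1 + δ) * (1 + δ) ≤ 1 + 15 * δ := num3 hδ hδ1
      calc (1 + 3 * δ) * (1 + δ) * (1 + δ) * lam ≤ (1 + 15 * δ) * lam := mul_le_mul_of_nonneg_right h14 hl.le
        _ ≤ lam + 15 * δ := by nlinarith
    rw [hBd]
    simp only
    have h8 : Real.exp (∑ k ∈ Finset.Ioc 0 (K i), (u (ap p k) + 2 * u (ap p k) ^ 2)) ≤ (2 : ℝ) ^ ((lam + 15 * δ) * i) := by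
      rw [two_rpow]
      apply Real.exp_le_exp.2
      linarith
    exact mul_le_mul h6 h8 (Real.exp_pos _).le (by positivity)
  -- Borel-Cantelli
  have hbc : ∀ᵐ ω ∂μ, ∀ᶠ i : ℕ in atTop, ω ∉ {ω | (((PB i).filter (fun p => 0 < Z i p ω)).card : ℝ) <
      (PB i).card / (2 * B i)} := by
    refine bc (b := fun i : ℕ => Real.exp (-(((1 - lam) / 4 * Real.log 2) * i)))
      (Pool.Agent.U462.Gap.summable_exp_neg (mul_pos (by linarith) hl2)) ?_
    filter_upwards [key, PB_card, eventually_ge_atTop 1, poly_pow 32 (β := (1 - lam) / 4) (by linarith)] with i g1 g2 g3 g4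
    obtain ⟨g5, g6⟩ := g1
    have hi1 : (1 : ℝ) ≤ i := by exact_mod_cast g3
    have hN0 : (0 : ℝ) < (PB i).card := lt_of_lt_of_le (by positivity) g2
    have hne : (PB i).Nonempty := by
      rw [← Finset.card_pos]; exact_mod_cast hN0
    have hB0 : 0 < B i := by rw [hBd]; positivity
    have h1 := second_moment (μ := μ) (PB i) (Z i) hB0 (fun p hp => by
      rw [hZd]
      exact ((ZP_meas hM.adapted hV _ _ _).mono (ℱ.le _)).aestronglyMeasurable) (fun p hp ω => (g6 p hp).2 ω)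
      (fun p hp => by
        rw [hZd]
        exact int_ZP (l := l) (u := u) hM.adapted hV _ (fun r _ => (g6 p hp).1 _ (by omega)))
      (fun p hp q hq hpq => by
        have hd1 : ∀ n, mode p (K i) n = none ∨ mode q (K i) n = none := by
          intro n
          unfold PB at hp hq
          rw [Finset.mem_filter, Finset.mem_Ico] at hp hq
          have e : 2 ^ (i + 1) = 2 * 2 ^ i := by ring
          exact mode_disj hp.2 hq.2 hpq hp.1.1 (by omega) hq.1.1 (by omega) g5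
        rw [hZd]
        simp only
        rw [integral_congr_ae (Eventually.of_forall fun ω => ZP_mul hd1 (2 ^ i - 1) (J i) ω)]
        exact int_ZP (l := l) (u := u) hM.adapted hV _ (fun r _ => un_ok ((g6 p hp).1 _ (by omega)) ((g6 q hq).1 _ (by omega))))
      hne
    refine h1.trans ?_
    rw [div_le_iff₀ hN0]
    have hexp : Real.exp (-((1 - lam) / 4 * Real.log 2 * i)) = (2 : ℝ) ^ (-((1 - lam) / 4) * i) := by
      rw [two_rpow]; congr 1; ring
    rw [hexp]
    have h2 : (2 : ℝ) ^ (-((1 - lam) / 4) * i) * (2 ^ i / (4 * i)) ≤ (2 : ℝ) ^ (-((1 - lam) / 4) * i) * (PB i).card :=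
      mul_le_mul_of_nonneg_left g2 (by positivity)
    refine le_trans ?_ h2
    rw [← mul_div_assoc, le_div_iff₀ (by positivity), hBd]
    simp only
    have h3 : 4 * (2 * ((i : ℝ) + 1) * 2 ^ ((lam + 15 * δ) * i)) * (4 * i) = 32 * (i * (i + 1)) * 2 ^ ((lam + 15 * δ) * (i : ℝ)) := by ring
    rw [h3]
    have h4 : 32 * ((i : ℝ) * (i + 1)) * 2 ^ ((lam + 15 * δ) * (i : ℝ)) ≤
        2 ^ ((1 - lam) / 4 * (i : ℝ)) * 2 ^ ((lam + 15 * δ) * (i : ℝ)) := mul_le_mul_of_nonneg_right g4 (by positivity)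
    refine h4.trans ?_
    rw [← Real.rpow_natCast 2 i, ← Real.rpow_add two_pos, ← Real.rpow_add two_pos]
    apply Real.rpow_le_rpow_of_exponent_le (by norm_num)
    nlinarith
  filter_upwards [hbc, no_VD hM hδ] with ω h1 h2
  obtain ⟨n₀, hn₀⟩ := h2
  filter_upwards [h1, key, PB_card, eventually_ge_atTop 1, hpow.eventually_ge_atTop (n₀ + 1),
    poly_pow 16 (β := ε / 2) (by linarith)] with i g1 g2 g3 g4 g5 g6
  have hi1 : (1 : ℝ) ≤ i := by exact_mod_cast g4
  have hB0 : 0 < B i := by rw [hBd]; positivity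
  rw [not_lt] at g1
  have hsub : (PB i).filter (fun p => 0 < Z i p ω) ⊆ SV A (lam / d) ((PB i).filter (fun p => ω ∈ A p)) ω := by
    intro p hp
    rw [Finset.mem_filter] at hp
    obtain ⟨hp1, hp2⟩ := hp
    have hpB := hp1
    unfold PB at hp1
    rw [Finset.mem_filter, Finset.mem_Ico] at hp1
    rw [hZd] at hp2
    have hnv : ω ∉ WV V (2 ^ i - 1) (J i) := by
      rw [hVd]
      exact nov hn₀ (by omega) _
    have hJ : ∀ k, k ≤ K i → ap p k ≤ 2 ^ i - 1 + J i := by
      intro k hk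
      rw [hJd]
      simp only
      have h5 : ap p k ≤ ap (2 ^ (i + 1)) (K i) := by
        unfold ap
        have := Nat.mul_le_mul (show 2 * k ≤ 2 * K i by omega) hp1.1.2.le
        omega
      omega
    have h2i : 1 ≤ 2 ^ i := Nat.one_le_two_pow
    have hpJ : p ≤ 2 ^ i - 1 + J i := by
      have h7 : p < 2 ^ (i + 1) := hp1.1.2
      rw [hJd]
      simp only
      omega
    unfold SV
    rw [Finset.mem_filter, Finset.mem_filter]
    refine ⟨⟨hpB, ?_⟩, ?_⟩
    · have h6 := (of_ZP_ne hp2.ne' hnv (m := p) (by omega) hpJ).1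
      exact h6 (by unfold mode; rw [if_pos rfl])
    · intro k hk1 hk2
      have h6 : k ≤ K i := by
        rw [hKd]
        apply Nat.le_floor
        refine hk2.trans ?_
        apply mul_le_mul_of_nonneg_left _ (by positivity)
        have hlp2 : Real.log p ≤ (i + 1) * Real.log 2 := by
          have hpR2 : (p : ℝ) ≤ ((2 ^ (i + 1) : ℕ) : ℝ) := by exact_mod_cast hp1.1.2.le
          have h1 := Real.log_le_log (by exact_mod_cast hp1.2.pos) hpR2
          have e2 : Real.log ((2 ^ (i + 1) : ℕ) : ℝ) = (i + 1) * Real.log 2 := by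
            push_cast; rw [Real.log_pow]; push_cast; ring
          rwa [e2] at h1
        exact pow_le_pow_left₀ (Real.log_natCast_nonneg p) hlp2 2
      have h7 : 2 * p * 1 ≤ 2 * p * k := Nat.mul_le_mul_left _ hk1
      have e : ap p k = 2 * p * k + 1 := by unfold ap; ring
      have hpos := hp1.2.pos
      refine (of_ZP_ne hp2.ne' hnv (m := ap p k) (by omega) (hJ k h6)).2 ?_
      unfold mode
      rw [if_neg (by omega), if_pos ((tst_iff hpos).2 ⟨k, hk1, h6, rfl⟩)]
  have hcard : (((PB i).filter (fun p => 0 < Z i p ω)).card : ℝ) ≤ (SV A (lam / d) ((PB i).filter (fun p => ω ∈ A p)) ω).card := by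
    exact_mod_cast Finset.card_le_card hsub
  refine le_trans ?_ hcard
  refine le_trans ?_ g1
  rw [le_div_iff₀ (by positivity)]
  refine le_trans ?_ g3
  rw [le_div_iff₀ (by positivity), hBd]
  simp only
  have h3 : (2 : ℝ) ^ ((1 - lam - ε) * (i : ℝ)) * (2 * (2 * ((i : ℝ) + 1) * 2 ^ ((lam + 15 * δ) * (i : ℝ)))) * (4 * i) =
      16 * (i * (i + 1)) * (2 ^ ((1 - lam - ε) * (i : ℝ)) * 2 ^ ((lam + 15 * δ) * (i : ℝ))) := by ring
  rw [h3]
  have h4 : 16 * ((i : ℝ) * (i + 1)) * (2 ^ ((1 - lam - ε) * (i : ℝ)) * 2 ^ ((lam + 15 * δ) * (i : ℝ))) ≤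
      2 ^ (ε / 2 * (i : ℝ)) * (2 ^ ((1 - lam - ε) * (i : ℝ)) * 2 ^ ((lam + 15 * δ) * (i : ℝ))) :=
    mul_le_mul_of_nonneg_right g6 (by positivity)
  refine h4.trans ?_
  rw [← Real.rpow_natCast 2 i, ← Real.rpow_add two_pos, ← Real.rpow_add two_pos]
  apply Real.rpow_le_rpow_of_exponent_le (by norm_num)
  nlinarith

end Pool.Agent.U462.Mul
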