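import Mathlib
import Pool.Agent.U462.Mul.Low

set_option autoImplicit false
set_option linter.unusedSectionVars false

/-! # The least multiplier: upper bound for the number of exceptions -/

open MeasureTheory Filter Set
open scoped ENNReal Topology

namespace Pool.Agent.U462.Mul

open Pool.Agent.R528.RM (dens WV dens_meas lower_meas upper_meas WV_meas)
open Pool.Agent.U462.Gap (fT aT fT_def' fT_nonneg aT_nonneg aT_tendsto Small tlog Model VD VD_meas no_VD bc markov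
  two_rpow card_block)

variable {Ω : Type} {m0 : MeasurableSpace Ω} {μ : Measure Ω} [IsProbabilityMeasure μ]
  {ℱ : Filtration ℕ m0} {A : ℕ → Set Ω} {a : ℕ → ℝ}

set_option maxHeartbeats 4000000 in
open Classical in
/-- **Upper bound** for the number of integers with a large least multiplier. -/
theorem count_up {T : ℕ → ℕ} (hM : Model μ ℱ A (aT T)) (hT : Monotone T) (hTs : Small T)
    (hTk : ∀ κ : ℝ, 0 < κ → ∀ᶠ n : ℕ in atTop, (T n : ℝ) ≤ Real.log n ^ κ) {lam : ℝ} (hl : 0 < lam) (hl1 : lam < 1)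
    {ε : ℝ} (hε : 0 < ε) : ∀ᵐ ω ∂μ, ∀ᶠ i : ℕ in atTop,
      ((SV A (lam / dT T) (Finset.Ico (2 ^ i) (2 ^ (i + 1))) ω).card : ℝ) ≤ (2 : ℝ) ^ ((1 - lam + ε) * i) := by
  have hl2 := l2pos
  obtain ⟨δ, hδ, hδ1, hδ2⟩ : ∃ δ : ℝ, 0 < δ ∧ δ ≤ 1 / 8 ∧ 4 * δ ≤ ε :=
    ⟨min (1 / 8) (ε / 4), lt_min (by norm_num) (by linarith), min_le_left _ _, by
      linarith [min_le_right (1 / 8) (ε / 4)]⟩
  obtain ⟨u₀, η, hη, hη1, H⟩ := amass δ hδ (by linarith)
  have H := H T hT hTs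
  have hdT := dT_pos T
  obtain ⟨d, hd⟩ : ∃ d, d = dT T := ⟨_, rfl⟩
  rw [← hd] at hdT H ⊢
  have hd0 : 0 < d := by linarith
  obtain ⟨V, hVd⟩ : ∃ V, V = VD μ ℱ A (aT T) δ := ⟨_, rfl⟩
  have hV : ∀ n, MeasurableSet[ℱ n] (V n) := fun n => by rw [hVd]; exact VD_meas δ n
  obtain ⟨K, hKd⟩ : ∃ K : ℕ → ℕ, K = fun m : ℕ => ⌊lam / d * Real.log (m : ℝ) ^ 2⌋₊ := ⟨_, rfl⟩
  obtain ⟨F, hF⟩ : ∃ F : ℕ → Set Ω, F = fun m => No A m (K m) \ WV V (2 * m) (2 * K m * m) := ⟨_, rfl⟩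
  have hFm : ∀ n, MeasurableSet (F n) := fun n => by
    rw [hF]
    exact (No_meas hM.adapted n _).diff (ℱ.le _ _ (WV_meas hV (2 * n) _))
  have hpow : Tendsto (fun i : ℕ => 2 ^ i) atTop atTop := tendsto_pow_atTop_atTop_of_one_lt (by norm_num)
  have e1 := (aT_tendsto T hTs).eventually (eventually_le_nhds (show (0 : ℝ) < 1 by norm_num))
  obtain ⟨n₁, hn₁⟩ := eventually_atTop.1 e1
  -- one integer
  have hone : ∀ᶠ m : ℕ in atTop, μ.real (F m) ≤ Real.exp (2 - (1 - 2 * δ) * (lam * Real.log m)) := by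
    filter_upwards [H, powT_sq T hTk u₀, rpow_log_sq (η := η) (C := lam / d) hη, eventually_ge_atTop n₁,
      eventually_ge_atTop 1, tlog.eventually_ge_atTop (max 2 (2 * d / lam))] with m g1 g2 g3 g4 g5 g6
    obtain ⟨L, hL⟩ : ∃ L, L = Real.log (m : ℝ) := ⟨_, rfl⟩
    have g6a : 2 ≤ L := by rw [hL]; exact (le_max_left _ _).trans g6
    have g6b : 2 * d / lam ≤ L := by rw [hL]; exact (le_max_right _ _).trans g6
    have hL0 : 0 < L := by linarith
    obtain ⟨Q, hQ⟩ : ∃ Q : ℝ, Q = lam / d * L ^ 2 := ⟨_, rfl⟩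
    have hQ0 : 0 < Q := by rw [hQ]; positivity
    have hKQ : (K m : ℝ) ≤ Q := by rw [hKd, hQ, hL]; exact Nat.floor_le (by positivity)
    have hKQ' : Q - 1 ≤ K m := by
      rw [hKd, hQ, hL]; linarith [Nat.lt_floor_add_one (lam / d * (Real.log (m : ℝ)) ^ 2)]
    have hQL : 2 * L ≤ Q := by
      have h1 : 2 * d ≤ L * lam := by rwa [div_le_iff₀ hl] at g6b
      rw [hQ, div_mul_eq_mul_div, le_div_iff₀ hd0]
      nlinarith
    have hK1 : ((T (m ^ 2) : ℝ) + 2) ^ u₀ ≤ K m := by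
      rw [← hL] at g2
      linarith
    have hK2 : (K m : ℝ) ≤ (m : ℝ) ^ η := by
      refine hKQ.trans ?_
      rw [hQ, hL]
      exact g3
    obtain ⟨s1, -⟩ := g1 (K m) hK1 hK2
    have h3 := no_le (μ := μ) hM.adapted (aT_nonneg T) hδ (by linarith) (m := m) g5 (K m)
      (fun n hn => hn₁ n (g4.trans hn))
    have h4 : μ.real (F m) ≤ Real.exp (-((1 - δ) * ∑ k ∈ Finset.Ioc 0 (K m), aT T (ap m k))) := by
      rw [hF, hVd]; exact h3
    refine h4.trans (Real.exp_le_exp.2 ?_)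
    rw [← hL] at s1 ⊢
    have h5 : lam * L - 1 ≤ d * K m / L := by
      rw [le_div_iff₀ hL0]
      have h6 := mul_le_mul_of_nonneg_left hKQ' hd0.le
      have e : d * (Q - 1) = lam * L ^ 2 - d := by rw [hQ]; field_simp
      rw [e] at h6
      nlinarith
    have h6 : (1 - δ) * ((1 - δ) * (lam * L - 1)) ≤ (1 - δ) * ∑ k ∈ Finset.Ioc 0 (K m), aT T (ap m k) := by
      apply mul_le_mul_of_nonneg_left _ (by linarith)
      exact (mul_le_mul_of_nonneg_left h5 (by linarith)).trans s1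
    have h7 : (1 - 2 * δ) * (lam * L) - 2 ≤ (1 - δ) * ((1 - δ) * (lam * L - 1)) := by
      have h8 : 0 ≤ lam * L := by positivity
      have h9 : (1 - δ) * (1 - δ) = 1 - 2 * δ + δ ^ 2 := by ring
      have h10 : (1 - δ) * ((1 - δ) * (lam * L - 1)) = (1 - 2 * δ + δ ^ 2) * (lam * L) - (1 - δ) * (1 - δ) := by ring
      rw [h10]
      have h11 : (1 - δ) * (1 - δ) ≤ 1 := by nlinarith
      nlinarith [mul_nonneg (sq_nonneg δ) h8]
    linarith
  obtain ⟨n₂, hn₂⟩ := eventually_atTop.1 hone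
  have hY : ∀ᵐ ω ∂μ, ∀ᶠ i : ℕ in atTop,
      ω ∉ {ω | (2 : ℝ) ^ ((1 - lam + ε) * (i : ℝ)) <
        ∑ n ∈ Finset.Ico (2 ^ i) (2 ^ (i + 1)), (F n).indicator (fun _ => (1 : ℝ)) ω} := by
    refine bc (b := fun i : ℕ => Real.exp 2 * Real.exp (-((ε / 2 * Real.log 2) * i)))
      ((Pool.Agent.U462.Gap.summable_exp_neg (by positivity)).mul_left _) ?_
    filter_upwards [hpow.eventually_ge_atTop n₂] with i hi
    have hpos : 0 < (2 : ℝ) ^ ((1 - lam + ε) * (i : ℝ)) := by positivity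
    refine (markov (μ := μ) (Finset.Ico (2 ^ i) (2 ^ (i + 1))) F (fun n _ => hFm n) hpos).trans ?_
    rw [div_le_iff₀ hpos]
    have h1 : ∑ n ∈ Finset.Ico (2 ^ i) (2 ^ (i + 1)), μ.real (F n) ≤
        ∑ n ∈ Finset.Ico (2 ^ i) (2 ^ (i + 1)), Real.exp (2 - (1 - 2 * δ) * (lam * (i * Real.log 2))) := by
      apply Finset.sum_le_sum
      intro n hn
      rw [Finset.mem_Ico] at hn
      refine (hn₂ n (hi.trans hn.1)).trans (Real.exp_le_exp.2 ?_)
      have h2 : (i : ℝ) * Real.log 2 ≤ Real.log n := by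
        have h3 : ((2 ^ i : ℕ) : ℝ) ≤ n := by exact_mod_cast hn.1
        have h4 := Real.log_le_log (by positivity) h3
        push_cast at h4
        rwa [Real.log_pow] at h4
      have h5 : (1 - 2 * δ) * (lam * (i * Real.log 2)) ≤ (1 - 2 * δ) * (lam * Real.log n) := by
        apply mul_le_mul_of_nonneg_left _ (by linarith)
        exact mul_le_mul_of_nonneg_left h2 hl.le
      linarith
    refine h1.trans ?_
    rw [Finset.sum_const, card_block, nsmul_eq_mul]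
    have e2 : ((2 ^ i : ℕ) : ℝ) = Real.exp (i * Real.log 2) := by
      push_cast
      rw [← Real.exp_log (show (0 : ℝ) < 2 by norm_num), ← Real.exp_nat_mul, Real.log_exp]
    have e3 : (2 : ℝ) ^ ((1 - lam + ε) * (i : ℝ)) = Real.exp ((1 - lam + ε) * i * Real.log 2) := by
      rw [two_rpow]; congr 1; ring
    rw [e2, e3, ← Real.exp_add, ← Real.exp_add, ← Real.exp_add]
    apply Real.exp_le_exp.2
    have h3 : (0 : ℝ) ≤ i * Real.log 2 := by positivity
    have h4 : 2 * δ * lam ≤ ε / 2 := by nlinarith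
    nlinarith
  filter_upwards [hY, no_VD hM hδ] with ω g1 g2
  obtain ⟨n₀, hn₀⟩ := g2
  filter_upwards [g1, hpow.eventually_ge_atTop n₀] with i h1 h2
  have h1' : ∑ n ∈ Finset.Ico (2 ^ i) (2 ^ (i + 1)), (F n).indicator (fun _ => (1 : ℝ)) ω ≤
      (2 : ℝ) ^ ((1 - lam + ε) * (i : ℝ)) := by
    by_contra hcon
    exact h1 (not_le.1 hcon)
  refine le_trans ?_ h1'
  have h5 : (((Finset.Ico (2 ^ i) (2 ^ (i + 1))).filter (fun n => ω ∈ F n)).card : ℝ) =
      ∑ n ∈ Finset.Ico (2 ^ i) (2 ^ (i + 1)), (F n).indicator (fun _ => (1 : ℝ)) ω := by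
    rw [Finset.card_filter]
    push_cast
    apply Finset.sum_congr rfl
    intro n _
    by_cases h6 : ω ∈ F n <;> simp [h6]
  rw [← h5]
  have hsub : SV A (lam / d) (Finset.Ico (2 ^ i) (2 ^ (i + 1))) ω ⊆
      (Finset.Ico (2 ^ i) (2 ^ (i + 1))).filter (fun n => ω ∈ F n) := by
    intro m hm
    unfold SV at hm
    rw [Finset.mem_filter] at hm ⊢
    refine ⟨hm.1, ?_⟩
    have hmI := Finset.mem_Ico.1 hm.1
    rw [hF]
    refine ⟨fun k hk1 hk2 => hm.2 k hk1 ?_, ?_⟩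
    · have h6 : (k : ℝ) ≤ (K m : ℝ) := by exact_mod_cast hk2
      refine h6.trans ?_
      rw [hKd]
      exact Nat.floor_le (by positivity)
    · rw [hVd]
      exact nov hn₀ (by omega) _
  exact_mod_cast Finset.card_le_card hsub

end Pool.Agent.U462.Mul
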